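import Mathlib

set_option autoImplicit false

namespace Pool.Agent.MP_8317ba_co

open Finset

/-- Kinds of conditions between consecutive letters of a word. -/
inductive Kind where
  | A : Kind
  | D : Kind
  | J : Kind
  deriving DecidableEq

variable {R : Type*} [CommRing R]

/-- condition between consecutive letters `a`, `b`: `A` is weak ascent, `D` strict descent, `J` none. -/
def rho (R : Type*) [CommRing R] : Kind → ℕ → ℕ → R
  | Kind.A, a, b => if a ≤ b then 1 else 0
  | Kind.D, a, b => if b < a then 1 else 0
  | Kind.J, _, _ => 1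

/-- modified condition at the marked place: `A` is strict ascent, `D` weak descent. -/
def rho' (R : Type*) [CommRing R] : Kind → ℕ → ℕ → R
  | Kind.A, a, b => if a < b then 1 else 0
  | Kind.D, a, b => if b ≤ a then 1 else 0
  | Kind.J, _, _ => 1

theorem rho_D (a b : ℕ) : rho R Kind.D a b = rho R Kind.J a b - rho R Kind.A a b := by
  simp only [rho]
  split_ifs with h1 h2 h2 <;> first | omega | simp

theorem rho'_D (a b : ℕ) : rho' R Kind.D a b = rho' R Kind.J a b - rho' R Kind.A a b := by
  simp only [rho']
  split_ifs with h1 h2 h2 <;> first | omega | simp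

/-- generating function of continuations of a word after the letter `a`, letters `< n`. -/
def G (x : ℕ → R) (n : ℕ) : List Kind → ℕ → R
  | [], _ => 1
  | k :: ks, a => ∑ b ∈ range n, rho R k a b * (x b * G x n ks b)

/-- generating function of words with letters `< n` with pattern `ks`. -/
def W (x : ℕ → R) (n : ℕ) (ks : List Kind) : R := ∑ a ∈ range n, x a * G x n ks a

/-- generating function of continuations with a mark. -/
def Z (x : ℕ → R) (M : ℕ) : List Kind → ℕ → R
  | [], _ => 1
  | k :: ks, a => ∑ b ∈ range (M + 1), rho' R k a b * (x b * G x (M + 1) ks b)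
      + ∑ b ∈ range M, rho R k a b * (x b * Z x M ks b)

/-- weakly increasing words of length `m` with letters in `[a, n)`. -/
def H (x : ℕ → R) (n m a : ℕ) : R := G x n (List.replicate m Kind.A) a

theorem H_zero (x : ℕ → R) (n a : ℕ) : H x n 0 a = 1 := rfl

theorem H_succ (x : ℕ → R) (n m a : ℕ) :
    H x n (m + 1) a = ∑ b ∈ range n, (if a ≤ b then 1 else 0) * (x b * H x n m b) := by
  unfold H
  rw [List.replicate_succ]
  rfl

theorem G_append_J (x : ℕ → R) (n m : ℕ) (ks : List Kind) (a : ℕ) :
    G x n (List.replicate m Kind.A ++ Kind.J :: ks) a = H x n m a * W x n ks := by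
  induction m generalizing a with
  | zero => simp [G, H_zero, W, rho]
  | succ m ih =>
    rw [List.replicate_succ, List.cons_append, H_succ, Finset.sum_mul]
    show ∑ b ∈ range n, rho R Kind.A a b * _ = _
    refine Finset.sum_congr rfl fun b _ => ?_
    rw [ih]
    simp only [rho]
    ring

theorem Z_append_J (x : ℕ → R) (M m : ℕ) (ks : List Kind) (a : ℕ) :
    Z x M (List.replicate m Kind.A ++ Kind.J :: ks) a =
      Z x M (List.replicate m Kind.A) a * W x (M + 1) ks +
      H x M m a * ∑ b ∈ range M, x b * Z x M ks b := by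
  induction m generalizing a with
  | zero => simp [Z, H_zero, W, rho, rho']
  | succ m ih =>
    rw [List.replicate_succ, List.cons_append, H_succ]
    show ∑ b ∈ range (M + 1), rho' R Kind.A a b * _ + ∑ b ∈ range M, rho R Kind.A a b * _ =
      (∑ b ∈ range (M + 1), rho' R Kind.A a b * _ + ∑ b ∈ range M, rho R Kind.A a b * _) * _ + _
    rw [add_mul, Finset.sum_mul, Finset.sum_mul, Finset.sum_mul, add_assoc, ← Finset.sum_add_distrib]
    congr 1
    · refine Finset.sum_congr rfl fun b _ => ?_
      rw [G_append_J]
      unfold H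
      ring
    · refine Finset.sum_congr rfl fun b _ => ?_
      rw [ih]
      simp only [rho]
      ring

theorem H_step (x : ℕ → R) (n m a : ℕ) (ha : a < n) :
    H x n (m + 1) a = x a * H x n m a + H x n (m + 1) (a + 1) := by
  rw [H_succ, H_succ]
  rw [← Finset.add_sum_erase (range n) _ (mem_range.2 ha),
    ← Finset.add_sum_erase (range n) (fun b => (if a + 1 ≤ b then 1 else 0) * (x b * H x n m b))
      (mem_range.2 ha)]
  simp only [le_refl, if_true, one_mul, Nat.succ_le_iff, lt_irrefl, if_false, zero_mul, zero_add]
  congr 1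
  refine Finset.sum_congr rfl fun b hb => ?_
  have : b ≠ a := (Finset.mem_erase.1 hb).1
  congr 2
  exact propext ⟨fun h => lt_of_le_of_ne h this.symm, le_of_lt⟩

theorem H_top (x : ℕ → R) (n m a : ℕ) (ha : n ≤ a) : H x n (m + 1) a = 0 := by
  rw [H_succ]
  refine Finset.sum_eq_zero fun b hb => ?_
  have : b < n := mem_range.1 hb
  rw [if_neg (by omega), zero_mul]

/-- the power sum of the letters in `[c, M)`. -/
def P (x : ℕ → R) (M c : ℕ) : R := ∑ a ∈ range M, (if c ≤ a then 1 else 0) * x a

theorem P_step (x : ℕ → R) (M c : ℕ) (hc : c < M) : P x M c = x c + P x M (c + 1) := by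
  unfold P
  rw [← Finset.add_sum_erase (range M) _ (mem_range.2 hc),
    ← Finset.add_sum_erase (range M) (fun a => (if c + 1 ≤ a then 1 else 0) * x a)
      (mem_range.2 hc)]
  simp only [le_refl, if_true, one_mul, Nat.succ_le_iff, lt_irrefl, if_false, zero_mul, zero_add]
  congr 1
  refine Finset.sum_congr rfl fun b hb => ?_
  have : b ≠ c := (Finset.mem_erase.1 hb).1
  congr 2
  exact propext ⟨fun h => lt_of_le_of_ne h this.symm, le_of_lt⟩

theorem P_top (x : ℕ → R) (M c : ℕ) (hc : M ≤ c) : P x M c = 0 := by
  unfold P
  refine Finset.sum_eq_zero fun b hb => ?_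
  have : b < M := mem_range.1 hb
  rw [if_neg (by omega), zero_mul]

/-- sum over the marked weakly increasing words. -/
def Y (x : ℕ → R) (M m c : ℕ) : R :=
  ∑ a ∈ range M, (if c ≤ a then 1 else 0) * (x a * Z x M (List.replicate m Kind.A) a)

theorem Y_step (x : ℕ → R) (M m c : ℕ) (hc : c < M) :
    Y x M m c = x c * Z x M (List.replicate m Kind.A) c + Y x M m (c + 1) := by
  unfold Y
  rw [← Finset.add_sum_erase (range M) _ (mem_range.2 hc),
    ← Finset.add_sum_erase (range M) (fun a => (if c + 1 ≤ a then 1 else 0) *
      (x a * Z x M (List.replicate m Kind.A) a)) (mem_range.2 hc)]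
  simp only [le_refl, if_true, one_mul, Nat.succ_le_iff, lt_irrefl, if_false, zero_mul, zero_add]
  congr 1
  refine Finset.sum_congr rfl fun b hb => ?_
  have : b ≠ c := (Finset.mem_erase.1 hb).1
  congr 2
  exact propext ⟨fun h => lt_of_le_of_ne h this.symm, le_of_lt⟩

theorem Y_top (x : ℕ → R) (M m c : ℕ) (hc : M ≤ c) : Y x M m c = 0 := by
  unfold Y
  refine Finset.sum_eq_zero fun b hb => ?_
  have : b < M := mem_range.1 hb
  rw [if_neg (by omega), zero_mul]

theorem Z_replicate_succ (x : ℕ → R) (M m a : ℕ) :
    Z x M (List.replicate (m + 1) Kind.A) a = H x (M + 1) (m + 1) (a + 1) + Y x M m a := by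
  rw [List.replicate_succ, H_succ]
  rfl

theorem Y_eq (x : ℕ → R) (M m c : ℕ) : Y x M m c = P x M c * H x (M + 1) m c := by
  induction m generalizing c with
  | zero =>
    unfold Y P
    rw [H_zero, mul_one]
    refine Finset.sum_congr rfl fun b _ => ?_
    simp [Z]
  | succ m ih =>
    by_cases hc : M ≤ c
    · rw [Y_top _ _ _ _ hc, P_top _ _ _ hc, zero_mul]
    · push Not at hc
      obtain ⟨d, rfl⟩ : ∃ d, M = c + d := ⟨M - c, by omega⟩
      induction d generalizing c with
      | zero => omega
      | succ d ihd =>
        rw [Y_step _ _ _ _ hc, Z_replicate_succ, ih]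
        have h2 : Y x (c + (d + 1)) (m + 1) (c + 1) =
            P x (c + (d + 1)) (c + 1) * H x (c + (d + 1) + 1) (m + 1) (c + 1) := by
          by_cases hd : c + 1 < c + (d + 1)
          · have := ihd (c + 1)
            rw [show c + 1 + d = c + (d + 1) by ring] at this
            exact this ih hd
          · rw [Y_top _ _ _ _ (by omega), P_top _ _ _ (by omega), zero_mul]
        rw [h2, P_step _ _ _ hc, H_step x (c + (d + 1) + 1) m c (by omega)]
        ring

theorem H_diff (x : ℕ → R) (M m c : ℕ) (hc : c ≤ M) :
    H x (M + 1) (m + 1) c - H x M (m + 1) c = x M * H x (M + 1) m c := by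
  induction m generalizing c with
  | zero =>
    rw [H_succ, H_succ, Finset.sum_range_succ, if_pos hc]
    simp only [H_zero]
    ring
  | succ m ih =>
    rw [H_succ, H_succ x M, H_succ x (M + 1) m c, Finset.sum_range_succ, Finset.sum_range_succ,
      if_pos hc, add_sub_right_comm, ← Finset.sum_sub_distrib, mul_add, Finset.mul_sum]
    congr 1
    · refine Finset.sum_congr rfl fun b hb => ?_
      have hb' : b < M := mem_range.1 hb
      rw [← mul_sub, ← mul_sub, ih b (by omega)]
      ring
    · rw [H_step x (M + 1) m M (by omega), H_top x (M + 1) m (M + 1) le_rfl]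
      ring

theorem W_replicate (x : ℕ → R) (n m : ℕ) :
    W x n (List.replicate m Kind.A) = H x n (m + 1) 0 := by
  rw [H_succ]
  unfold W
  refine Finset.sum_congr rfl fun b _ => ?_
  simp [H]

theorem W_append_J (x : ℕ → R) (n m : ℕ) (ks : List Kind) :
    W x n (List.replicate m Kind.A ++ Kind.J :: ks) = H x n (m + 1) 0 * W x n ks := by
  rw [← W_replicate]
  conv_lhs => unfold W
  rw [W, Finset.sum_mul]
  refine Finset.sum_congr rfl fun b _ => ?_
  rw [G_append_J]
  unfold H
  ring

/-- the key identity. -/
def Id (x : ℕ → R) (M : ℕ) (ks : List Kind) : Prop :=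
  x M * ∑ a ∈ range M, x a * Z x M ks a = P x M 0 * (W x (M + 1) ks - W x M ks)

theorem decomp (ks : List Kind) (h : ∀ k ∈ ks, k ≠ Kind.D) :
    ks = List.replicate ks.length Kind.A ∨
    ∃ m ks', ks = List.replicate m Kind.A ++ Kind.J :: ks' ∧ (∀ k ∈ ks', k ≠ Kind.D) ∧
      ks'.length < ks.length := by
  induction ks with
  | nil => left; rfl
  | cons k ks ih =>
    have hk : k ≠ Kind.D := h k (by simp)
    have hks : ∀ k ∈ ks, k ≠ Kind.D := fun k' hk' => h k' (by simp [hk'])
    cases k with
    | D => exact absurd rfl hk
    | J => right; exact ⟨0, ks, rfl, hks, by simp⟩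
    | A =>
      rcases ih hks with h1 | ⟨m, ks', h1, h2, h3⟩
      · left
        rw [List.length_cons, List.replicate_succ, ← h1]
      · right
        refine ⟨m + 1, ks', ?_, h2, ?_⟩
        · rw [List.replicate_succ, List.cons_append, ← h1]
        · simp; omega

theorem sum_ite_zero_le (f : ℕ → R) (n : ℕ) :
    ∑ a ∈ range n, (if 0 ≤ a then 1 else 0) * f a = ∑ a ∈ range n, f a := by
  refine Finset.sum_congr rfl fun b _ => ?_
  simp

theorem Id_AJ (x : ℕ → R) (M : ℕ) (ks : List Kind) (h : ∀ k ∈ ks, k ≠ Kind.D) : Id x M ks := by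
  induction hn : ks.length using Nat.strong_induction_on generalizing ks with
  | _ n ih =>
    subst hn
    rcases decomp ks h with h1 | ⟨m, ks', h1, h2, h3⟩
    · rw [h1]
      generalize ks.length = m
      unfold Id
      have := Y_eq x M m 0
      unfold Y at this
      rw [sum_ite_zero_le] at this
      rw [this, W_replicate, W_replicate, H_diff x M m 0 (by omega)]
      ring
    · have ih' := ih _ h3 ks' h2 rfl
      rw [h1]
      unfold Id at ih' ⊢
      have h5 : ∑ a ∈ range M, x a * Z x M (List.replicate m Kind.A ++ Kind.J :: ks') a =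
          Y x M m 0 * W x (M + 1) ks' + H x M (m + 1) 0 * ∑ b ∈ range M, x b * Z x M ks' b := by
        unfold Y
        rw [sum_ite_zero_le, H_succ, sum_ite_zero_le, Finset.sum_mul, Finset.sum_mul,
          ← Finset.sum_add_distrib]
        refine Finset.sum_congr rfl fun b _ => ?_
        rw [Z_append_J]
        ring
      rw [h5, Y_eq, W_append_J, W_append_J, mul_add,
        show x M * (H x M (m + 1) 0 * ∑ b ∈ range M, x b * Z x M ks' b) =
          H x M (m + 1) 0 * (x M * ∑ b ∈ range M, x b * Z x M ks' b) by ring, ih']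
      have h6 := H_diff x M m 0 (by omega)
      linear_combination (-(P x M 0 * W x (M + 1) ks')) * h6

theorem G_D (x : ℕ → R) (n : ℕ) (pre post : List Kind) (a : ℕ) :
    G x n (pre ++ Kind.D :: post) a =
      G x n (pre ++ Kind.J :: post) a - G x n (pre ++ Kind.A :: post) a := by
  induction pre generalizing a with
  | nil =>
    simp only [List.nil_append, G, ← Finset.sum_sub_distrib]
    refine Finset.sum_congr rfl fun b _ => ?_
    rw [rho_D]
    ring
  | cons k pre ih =>
    simp only [List.cons_append, G, ← Finset.sum_sub_distrib]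
    refine Finset.sum_congr rfl fun b _ => ?_
    rw [ih]
    ring

theorem W_D (x : ℕ → R) (n : ℕ) (pre post : List Kind) :
    W x n (pre ++ Kind.D :: post) =
      W x n (pre ++ Kind.J :: post) - W x n (pre ++ Kind.A :: post) := by
  unfold W
  rw [← Finset.sum_sub_distrib]
  refine Finset.sum_congr rfl fun b _ => ?_
  rw [G_D]
  ring

theorem Z_D (x : ℕ → R) (M : ℕ) (pre post : List Kind) (a : ℕ) :
    Z x M (pre ++ Kind.D :: post) a =
      Z x M (pre ++ Kind.J :: post) a - Z x M (pre ++ Kind.A :: post) a := by
  induction pre generalizing a with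
  | nil =>
    simp only [List.nil_append, Z]
    rw [add_sub_add_comm, ← Finset.sum_sub_distrib, ← Finset.sum_sub_distrib]
    congr 1
    · refine Finset.sum_congr rfl fun b _ => ?_
      rw [rho'_D]
      ring
    · refine Finset.sum_congr rfl fun b _ => ?_
      rw [rho_D]
      ring
  | cons k pre ih =>
    simp only [List.cons_append, Z]
    rw [add_sub_add_comm, ← Finset.sum_sub_distrib, ← Finset.sum_sub_distrib]
    congr 1
    · refine Finset.sum_congr rfl fun b _ => ?_
      rw [G_D]
      ring
    · refine Finset.sum_congr rfl fun b _ => ?_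
      rw [ih]
      ring

theorem Id_all' (x : ℕ → R) (M : ℕ) (post pre : List Kind) (h : ∀ k ∈ pre, k ≠ Kind.D) :
    Id x M (pre ++ post) := by
  induction post generalizing pre with
  | nil => simpa using Id_AJ x M pre h
  | cons k post ih =>
    have hA : Id x M (pre ++ Kind.A :: post) := by
      have := ih (pre ++ [Kind.A]) (by
        intro k hk
        rcases List.mem_append.1 hk with hk | hk
        · exact h k hk
        · simp only [List.mem_singleton] at hk; rw [hk]; decide)
      simpa using this
    have hJ : Id x M (pre ++ Kind.J :: post) := by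
      have := ih (pre ++ [Kind.J]) (by
        intro k hk
        rcases List.mem_append.1 hk with hk | hk
        · exact h k hk
        · simp only [List.mem_singleton] at hk; rw [hk]; decide)
      simpa using this
    cases k with
    | A => exact hA
    | J => exact hJ
    | D =>
      unfold Id at hA hJ ⊢
      have h1 : ∑ a ∈ range M, x a * Z x M (pre ++ Kind.D :: post) a =
          ∑ a ∈ range M, x a * Z x M (pre ++ Kind.J :: post) a -
          ∑ a ∈ range M, x a * Z x M (pre ++ Kind.A :: post) a := by
        rw [← Finset.sum_sub_distrib]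
        refine Finset.sum_congr rfl fun b _ => ?_
        rw [Z_D]
        ring
      rw [h1, W_D, W_D]
      linear_combination hJ - hA

theorem Id_all (x : ℕ → R) (M : ℕ) (ks : List Kind) : Id x M ks := by
  simpa using Id_all' x M ks [] (by simp)

/-- Appending an unconstrained letter multiplies by the sum of the variables. -/
theorem G_append_singleton_J (x : ℕ → R) (n : ℕ) (ks : List Kind) (a : ℕ) :
    G x n (ks ++ [Kind.J]) a = G x n ks a * ∑ b ∈ range n, x b := by
  induction ks generalizing a with
  | nil => simp [G, rho]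
  | cons k ks ih =>
    simp only [List.cons_append, G, Finset.sum_mul]
    refine Finset.sum_congr rfl fun b _ => ?_
    rw [ih, Finset.mul_sum, Finset.mul_sum, Finset.mul_sum, Finset.mul_sum]
    refine Finset.sum_congr rfl fun c _ => ?_
    ring

theorem W_append_singleton_J (x : ℕ → R) (n : ℕ) (ks : List Kind) :
    W x n (ks ++ [Kind.J]) = (∑ b ∈ range n, x b) * W x n ks := by
  unfold W
  rw [Finset.mul_sum]
  refine Finset.sum_congr rfl fun b _ => ?_
  rw [G_append_singleton_J]
  ring

/-- Final form of the key identity. -/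
theorem key (x : ℕ → R) (M : ℕ) (ks : List Kind) :
    x M * (W x (M + 1) ks + ∑ a ∈ range M, x a * Z x M ks a) =
      W x (M + 1) (ks ++ [Kind.J]) - W x M (ks ++ [Kind.J]) := by
  have h := Id_all x M ks
  unfold Id P at h
  rw [sum_ite_zero_le] at h
  rw [W_append_singleton_J, W_append_singleton_J, Finset.sum_range_succ]
  linear_combination h

end Pool.Agent.MP_8317ba_co
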