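import Mathlib
import Pool.Agent.MP_8317ba_co.KeyId

set_option autoImplicit false

namespace Pool.Agent.MP_8317ba_co

open Finset

variable {R : Type*} [CommRing R]

/-- words of length `n` with letters `< N` -/
def Wd (n N : ℕ) : Finset (Fin n → ℕ) := Fintype.piFinset (fun _ => range N)

theorem mem_Wd {n N : ℕ} {w : Fin n → ℕ} : w ∈ Wd n N ↔ ∀ i, w i < N := by
  simp [Wd, Fintype.mem_piFinset]

theorem sum_Wd_succ {m : ℕ} (Φ : (Fin (m + 1) → ℕ) → R) (N : ℕ) :
    ∑ u ∈ Wd (m + 1) N, Φ u =
      ∑ a ∈ range N, ∑ u' ∈ Wd m N, Φ (Fin.cons (α := fun _ => ℕ) a u') := by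
  rw [Finset.sum_sigma']
  refine Finset.sum_bij' (i := fun u _ => (⟨u 0, Fin.tail u⟩ : Σ _ : ℕ, Fin m → ℕ))
    (j := fun y _ => Fin.cons (α := fun _ => ℕ) y.1 y.2) ?_ ?_ ?_ ?_ ?_
  · intro u hu
    rw [mem_Wd] at hu
    simp only [Finset.mem_sigma, Finset.mem_range, mem_Wd]
    exact ⟨hu 0, fun i => hu i.succ⟩
  · rintro ⟨a, u'⟩ h
    simp only [Finset.mem_sigma, Finset.mem_range, mem_Wd] at h
    rw [mem_Wd]
    intro i
    refine Fin.cases ?_ (fun i => ?_) i
    · simpa using h.1
    · simpa using h.2 i
  · intro u _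
    exact Fin.cons_self_tail u
  · rintro ⟨a, u'⟩ _
    simp
  · intro u _
    exact congrArg Φ (Fin.cons_self_tail u).symm

theorem sum_Wd_snoc {m : ℕ} (Φ : (Fin (m + 1) → ℕ) → R) (N M : ℕ) (hM : M < N) :
    ∑ u ∈ Wd (m + 1) N, (if u (Fin.last m) = M then 1 else 0) * Φ u =
      ∑ u' ∈ Wd m N, Φ (Fin.snoc (α := fun _ => ℕ) u' M) := by
  have h1 : ∀ u ∈ Wd (m + 1) N, (if u (Fin.last m) = M then (1 : R) else 0) * Φ u =
      if u (Fin.last m) = M then Φ u else 0 := by
    intro u _
    split_ifs <;> simp
  rw [Finset.sum_congr rfl h1, ← Finset.sum_filter]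
  refine Finset.sum_bij' (i := fun u _ => Fin.init u)
    (j := fun u' _ => Fin.snoc (α := fun _ => ℕ) u' M) ?_ ?_ ?_ ?_ ?_
  · intro u hu
    rw [Finset.mem_filter, mem_Wd] at hu
    rw [mem_Wd]
    exact fun i => hu.1 i.castSucc
  · intro u' hu'
    rw [mem_Wd] at hu'
    rw [Finset.mem_filter, mem_Wd]
    refine ⟨?_, by simp⟩
    intro i
    refine Fin.lastCases ?_ (fun i => ?_) i
    · simpa using hM
    · simpa using hu' i
  · intro u hu
    rw [Finset.mem_filter] at hu
    conv_rhs => rw [← Fin.snoc_init_self u]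
    rw [hu.2]
  · intro u' _
    simp
  · intro u hu
    rw [Finset.mem_filter] at hu
    conv_lhs => rw [← Fin.snoc_init_self u]
    rw [hu.2]

/-- prepend to a sequence -/
def consN (a : ℕ) (s : ℕ → ℕ) : ℕ → ℕ
  | 0 => a
  | i + 1 => s i

/-- a word as a sequence -/
def sq {m : ℕ} (u : Fin m → ℕ) : ℕ → ℕ := fun i => if h : i < m then u ⟨i, h⟩ else 0

theorem sq_cons {m : ℕ} (a : ℕ) (u : Fin m → ℕ) :
    sq (Fin.cons (α := fun _ => ℕ) a u) = consN a (sq u) := by
  funext i
  cases i with
  | zero => simp [sq, consN]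
  | succ i =>
    simp only [sq, consN]
    by_cases h : i < m
    · rw [dif_pos (by omega), dif_pos h]
      exact Fin.cons_succ (α := fun _ => ℕ) a u ⟨i, h⟩
    · rw [dif_neg (by omega), dif_neg h]

/-- indicator of the pattern `ks` with mark `r`. -/
def F (R : Type*) [CommRing R] (M : ℕ) : ℕ → List Kind → (ℕ → ℕ) → R
  | r, [], u => if 0 < r → u 0 < M then 1 else 0
  | r, k :: ks, u => (if 0 < r → u 0 < M then 1 else 0) *
      ((if r = 1 then rho' R k (u 0) (u 1) else rho R k (u 0) (u 1)) *
        F R M (r - 1) ks (fun i => u (i + 1)))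

/-- sum over the continuations after the letter `a`. -/
def g (x : ℕ → R) (M N r : ℕ) (ks : List Kind) (a : ℕ) : R :=
  ∑ u' ∈ Wd ks.length N, F R M r ks (consN a (sq u')) * ∏ i, x (u' i)

theorem g_nil (x : ℕ → R) (M N r a : ℕ) :
    g x M N r [] a = if 0 < r → a < M then 1 else 0 := by
  unfold g
  have : Wd 0 N = {fun i => i.elim0} := by
    ext w
    rw [mem_Wd, Finset.mem_singleton]
    constructor
    · intro _
      funext i
      exact i.elim0
    · intro _ i
      exact i.elim0
  rw [show ([] : List Kind).length = 0 from rfl, this, Finset.sum_singleton]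
  simp only [F, consN]
  rw [show ∏ i : Fin 0, x (i.elim0) = 1 from Finset.prod_of_isEmpty _, mul_one]
  congr 1

theorem g_cons (x : ℕ → R) (M N r a : ℕ) (k : Kind) (ks : List Kind) :
    g x M N r (k :: ks) a = (if 0 < r → a < M then 1 else 0) *
      ∑ b ∈ range N, (if r = 1 then rho' R k a b else rho R k a b) *
        (x b * g x M N (r - 1) ks b) := by
  unfold g
  rw [show (k :: ks).length = ks.length + 1 from rfl, sum_Wd_succ, Finset.mul_sum]
  refine Finset.sum_congr rfl fun b _ => ?_
  rw [Finset.mul_sum, Finset.mul_sum, Finset.mul_sum]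
  refine Finset.sum_congr rfl fun u _ => ?_
  rw [sq_cons, Fin.prod_univ_succ]
  have h1 : (fun i => consN a (consN b (sq u)) (i + 1)) = consN b (sq u) := rfl
  simp only [F, h1]
  have h2 : consN a (consN b (sq u)) 0 = a := rfl
  have h3 : consN a (consN b (sq u)) 1 = b := rfl
  rw [h2, h3]
  simp only [Fin.cons_zero, Fin.cons_succ]
  ring

theorem g_zero (x : ℕ → R) (M N : ℕ) (ks : List Kind) (a : ℕ) :
    g x M N 0 ks a = G x N ks a := by
  induction ks generalizing a with
  | nil => rw [g_nil]; simp [G]
  | cons k ks ih =>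
    rw [g_cons]
    simp only [lt_irrefl, false_imp_iff, if_true, one_mul, zero_ne_one, if_false, G]
    refine Finset.sum_congr rfl fun b _ => ?_
    rw [ih]

theorem g_sum (x : ℕ → R) (M : ℕ) (ks : List Kind) (a : ℕ) :
    ∑ r ∈ range (ks.length + 1), g x M (M + 1) (r + 1) ks a =
      (if a < M then 1 else 0) * Z x M ks a := by
  induction ks generalizing a with
  | nil =>
    simp only [List.length_nil, zero_add, Finset.range_one, Finset.sum_singleton, g_nil, Z, mul_one]
    simp
  | cons k ks ih =>
    rw [List.length_cons, Finset.sum_range_succ']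
    simp only [Z]
    have h1 : ∀ r ∈ range (ks.length + 1), g x M (M + 1) (r + 1 + 1) (k :: ks) a =
        (if a < M then 1 else 0) * ∑ b ∈ range (M + 1), rho R k a b *
          (x b * g x M (M + 1) (r + 1) ks b) := by
      intro r _
      rw [g_cons]
      simp only [Nat.zero_lt_succ, forall_true_left]
      refine congrArg _ (Finset.sum_congr rfl fun b _ => ?_)
      rw [if_neg (by omega), show r + 1 + 1 - 1 = r + 1 by omega]
    rw [Finset.sum_congr rfl h1, ← Finset.mul_sum, Finset.sum_comm, g_cons]
    have h2 : ∀ b ∈ range (M + 1), ∑ r ∈ range (ks.length + 1), rho R k a b *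
        (x b * g x M (M + 1) (r + 1) ks b) =
        rho R k a b * (x b * ((if b < M then 1 else 0) * Z x M ks b)) := by
      intro b _
      rw [← Finset.mul_sum, ← Finset.mul_sum, ih]
    rw [Finset.sum_congr rfl h2, Finset.sum_range_succ]
    simp only [lt_irrefl, if_false, zero_mul, mul_zero, add_zero, zero_add, if_true,
      zero_lt_one, forall_true_left]
    rw [← mul_add, add_comm]
    congr 1
    congr 1
    · refine Finset.sum_congr rfl fun b _ => ?_
      rw [show (1 : ℕ) - 1 = 0 from rfl, g_zero]
    · refine Finset.sum_congr rfl fun b hb => ?_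
      rw [if_pos (mem_range.1 hb), one_mul]

theorem sum_g (x : ℕ → R) (M N r m : ℕ) (ks : List Kind) (h : ks.length = m) :
    ∑ u ∈ Wd (m + 1) N, F R M r ks (sq u) * ∏ i, x (u i) =
      ∑ a ∈ range N, x a * g x M N r ks a := by
  subst h
  rw [sum_Wd_succ]
  refine Finset.sum_congr rfl fun a _ => ?_
  unfold g
  rw [Finset.mul_sum]
  refine Finset.sum_congr rfl fun u _ => ?_
  rw [sq_cons, Fin.prod_univ_succ]
  simp only [Fin.cons_zero, Fin.cons_succ]
  ring

/-- The total sum over marked words. -/
theorem marked_sum (x : ℕ → R) (M m : ℕ) (ks : List Kind) (h : ks.length = m) :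
    x M * ∑ r ∈ range (m + 2), ∑ u ∈ Wd (m + 1) (M + 1), F R M r ks (sq u) * ∏ i, x (u i) =
      W x (M + 1) (ks ++ [Kind.J]) - W x M (ks ++ [Kind.J]) := by
  rw [← key]
  congr 1
  rw [Finset.sum_range_succ', add_comm]
  congr 1
  · rw [sum_g x M (M + 1) 0 m ks h]
    unfold W
    refine Finset.sum_congr rfl fun a _ => ?_
    rw [g_zero]
  · have h1 : ∀ r ∈ range (m + 1), ∑ u ∈ Wd (m + 1) (M + 1), F R M (r + 1) ks (sq u) * ∏ i, x (u i) =
        ∑ a ∈ range (M + 1), x a * g x M (M + 1) (r + 1) ks a :=
      fun r _ => sum_g x M (M + 1) (r + 1) m ks h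
    rw [Finset.sum_congr rfl h1, Finset.sum_comm]
    subst h
    have h2 : ∀ a ∈ range (M + 1), ∑ r ∈ range (ks.length + 1), x a * g x M (M + 1) (r + 1) ks a =
        x a * ((if a < M then 1 else 0) * Z x M ks a) := by
      intro a _
      rw [← Finset.mul_sum, g_sum]
    rw [Finset.sum_congr rfl h2, Finset.sum_range_succ]
    simp only [lt_irrefl, if_false, zero_mul, mul_zero, add_zero]
    refine Finset.sum_congr rfl fun a ha => ?_
    rw [if_pos (mem_range.1 ha), one_mul]

/-- the kinds of a 0-1 pattern -/
def kd (b : Bool) : Kind := if b then Kind.D else Kind.A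

/-- descent condition with mark `r` -/
def dd (r : ℕ) (u : ℕ → ℕ) (i : ℕ) : Prop :=
  if i + 1 = r then u (i + 1) ≤ u i else u (i + 1) < u i

open Classical in
theorem F_closed (M r : ℕ) (l : List Bool) (u : ℕ → ℕ) :
    F R M r (l.map kd) u =
      if (∀ i, i ≤ l.length → i < r → u i < M) ∧
        (∀ (i : ℕ) (h : i < l.length), (l[i] = true ↔ dd r u i)) then 1 else 0 := by
  induction l generalizing r u with
  | nil =>
    simp only [List.map_nil, F, List.length_nil, Nat.le_zero_eq, forall_eq, Nat.not_lt_zero,
      IsEmpty.forall_iff, implies_true, and_true]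
  | cons b l ih =>
    simp only [List.map_cons, F]
    rw [ih]
    have h1 : (if r = 1 then rho' R (kd b) (u 0) (u 1) else rho R (kd b) (u 0) (u 1)) =
        if (b = true ↔ dd r u 0) then 1 else 0 := by
      unfold dd kd
      by_cases hr : r = 1
      · subst hr
        cases b
        · simp only [if_true, rho', zero_add, Bool.false_eq_true, if_false, false_iff, not_le]
        · simp only [if_true, rho', zero_add, true_iff]
      · rw [if_neg hr]
        cases b
        · simp only [rho, Bool.false_eq_true, if_false, false_iff, zero_add,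
            if_neg (Ne.symm hr), not_lt]
        · simp only [rho, if_true, zero_add, if_neg (Ne.symm hr), true_iff]
    rw [h1]
    have e1 : ∀ (p q s : Prop) [Decidable p] [Decidable q] [Decidable s],
        (if p then (1 : R) else 0) * ((if q then 1 else 0) * (if s then 1 else 0)) =
        if (p ∧ q ∧ s) then 1 else 0 := by
      intro p q s _ _ _
      split_ifs <;> simp_all
    rw [e1]
    congr 1
    apply propext
    constructor
    · rintro ⟨h2, h3, h4, h5⟩
      refine ⟨?_, ?_⟩
      · intro i hi hir
        cases i with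
        | zero => exact h2 hir
        | succ i =>
          exact h4 i (by simp only [List.length_cons] at hi; omega) (by omega)
      · intro i hi
        cases i with
        | zero => simpa using h3
        | succ i =>
          have := h5 i (by simp only [List.length_cons] at hi; omega)
          rw [List.getElem_cons_succ, this]
          unfold dd
          have : (i + 1 = r - 1) ↔ (i + 1 + 1 = r) := by omega
          simp only [this]
    · rintro ⟨h2, h3⟩
      refine ⟨?_, ?_, ?_, ?_⟩
      · intro hr
        exact h2 0 (Nat.zero_le _) hr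
      · have := h3 0 (by simp)
        simpa using this
      · intro i hi hir
        exact h2 (i + 1) (by simp only [List.length_cons]; omega) (by omega)
      · intro i hi
        have := h3 (i + 1) (by simp only [List.length_cons]; omega)
        rw [List.getElem_cons_succ] at this
        rw [this]
        unfold dd
        have : (i + 1 = r - 1) ↔ (i + 1 + 1 = r) := by omega
        simp only [this]

end Pool.Agent.MP_8317ba_co
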