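import Mathlib
import Pool.Agent.MP_8317ba_co.Words

set_option autoImplicit false

namespace Pool.Agent.MP_8317ba_co

open Finset

variable {R : Type*} [CommRing R]

/-- cyclic descent pattern of a word. -/
def wdP {m : ℕ} (w : Fin (m + 2) → ℕ) (i : Fin (m + 2)) : Prop :=
  if i = Fin.last (m + 1) then w (i + 1) ≤ w i else w (i + 1) < w i

/-- descent pattern with a mark at `r`. -/
def DD {m : ℕ} (r : Fin (m + 2)) (t : Fin (m + 2) → ℕ) (i : Fin (m + 2)) : Prop :=
  if i + 1 = r then t (i + 1) ≤ t i else t (i + 1) < t i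

/-- extension of a pattern by a non-descent and a descent. -/
def extk {m : ℕ} (κ : Fin m → Bool) (i : Fin (m + 2)) : Prop :=
  if h : i.val < m then κ ⟨i.val, h⟩ = true else i.val = m + 1

theorem snoc_val {m M : ℕ} (u : Fin (m + 1) → ℕ) (i : Fin (m + 2)) (h : i.val < m + 1) :
    (Fin.snoc (α := fun _ => ℕ) u M : Fin (m + 2) → ℕ) i = sq u i.val := by
  unfold sq
  rw [dif_pos h]
  simp [Fin.snoc, h]
  rfl

theorem snoc_last' {m M : ℕ} (u : Fin (m + 1) → ℕ) (i : Fin (m + 2)) (h : i.val = m + 1) :
    (Fin.snoc (α := fun _ => ℕ) u M : Fin (m + 2) → ℕ) i = M := by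
  have : i = Fin.last (m + 1) := Fin.ext h
  rw [this, Fin.snoc_last]

theorem val_add_one' {m : ℕ} (i : Fin (m + 2)) (h : i.val < m + 1) : (i + 1).val = i.val + 1 := by
  rw [Fin.val_add]
  simp only [Fin.val_one]
  exact Nat.mod_eq_of_lt (by omega)

theorem last_add_one {m : ℕ} (i : Fin (m + 2)) (h : i.val = m + 1) : i + 1 = 0 := by
  apply Fin.ext
  rw [Fin.val_add]
  simp only [Fin.val_one, h, Fin.val_zero]
  exact Nat.mod_self _

theorem DD_eq {m M : ℕ} (r : Fin (m + 2)) (u : Fin (m + 1) → ℕ) (hu : ∀ i, u i ≤ M)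
    (hb : ∀ i : ℕ, i ≤ m → i < r.val → sq u i < M) (i : Fin (m + 2)) (κ : Fin m → Bool)
    (hκ : ∀ j : Fin m, κ j = true ↔ dd r.val (sq u) j.val) :
    DD r (Fin.snoc (α := fun _ => ℕ) u M) i ↔ extk κ i := by
  have hsq : ∀ j, sq u j ≤ M := by
    intro j
    unfold sq
    split_ifs with h
    · exact hu _
    · exact Nat.zero_le _
  unfold DD extk
  rcases Nat.lt_trichotomy i.val m with h | h | h
  · rw [dif_pos h, hκ]
    unfold dd
    have h1 := val_add_one' i (by omega)
    have h2 : (i + 1 = r) ↔ (i.val + 1 = r.val) := by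
      rw [← h1]
      exact Fin.ext_iff
    rw [snoc_val u i (by omega), snoc_val u (i + 1) (by omega), h1]
    simp only [h2]
  · have h1 := val_add_one' i (by omega)
    rw [dif_neg (by omega), snoc_val u i (by omega), snoc_last' u (i + 1) (by omega)]
    have h3 := hsq i.val
    constructor
    · intro h4
      split_ifs at h4 with h5
      · have h6 : r.val = m + 1 := by rw [← h5, h1, h]
        have := hb i.val (by omega) (by omega)
        omega
      · omega
    · intro h4
      omega
  · have h1 : i.val = m + 1 := by omega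
    rw [dif_neg (by omega), snoc_last' u i h1, last_add_one i h1, snoc_val u 0 (by simp)]
    constructor
    · intro _; exact h1
    · intro _
      split_ifs with h5
      · exact hsq _
      · have h6 : 0 < r.val := by
          rcases Nat.eq_zero_or_pos r.val with h7 | h7
          · exact absurd (Fin.ext (by simp [h7])) h5
          · exact h7
        exact hb 0 (Nat.zero_le _) h6

theorem rev_add {m : ℕ} (r : Fin (m + 2)) : Fin.rev r + r = Fin.last (m + 1) := by
  apply Fin.ext
  rw [Fin.val_add, Fin.val_rev, Fin.val_last]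
  have := r.isLt
  rw [show m + 2 - (r.val + 1) + r.val = m + 1 by omega]
  exact Nat.mod_eq_of_lt (by omega)

theorem cond_iff {m M : ℕ} (r : Fin (m + 2)) (t : Fin (m + 2) → ℕ) :
    (∀ j, Fin.rev r < j → t (j + r) ≠ M) ↔ (∀ i : Fin (m + 2), i.val < r.val → t i ≠ M) := by
  constructor
  · intro h i hi
    have h1 := h (i - r) (by
      rw [Fin.lt_def, Fin.val_rev, Fin.val_sub]
      have := r.isLt
      rw [Nat.mod_eq_of_lt (by omega)]
      omega)
    rwa [sub_add_cancel] at h1
  · intro h j hj
    apply h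
    rw [Fin.lt_def, Fin.val_rev] at hj
    have h1 := r.isLt
    have h2 := j.isLt
    rw [Fin.val_add]
    have h3 : j.val + r.val = (j.val + r.val - (m + 2)) + (m + 2) := by omega
    rw [h3, Nat.add_mod_right, Nat.mod_eq_of_lt (by omega)]
    omega

theorem wdP_rot {m : ℕ} (r : Fin (m + 2)) (t : Fin (m + 2) → ℕ) (i : Fin (m + 2)) :
    wdP (fun j => t (j + r)) (i - r) ↔ DD r t i := by
  unfold wdP DD
  have h1 : (i - r = Fin.last (m + 1)) ↔ (i + 1 = r) := by
    constructor
    · intro h
      have h2 : i = Fin.last (m + 1) + r := by rw [← h, sub_add_cancel]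
      rw [h2, add_right_comm (Fin.last (m + 1)) r 1, last_add_one _ (Fin.val_last _), zero_add]
    · intro h
      have h2 : i = Fin.last (m + 1) + r := by
        have h3 : Fin.last (m + 1) + r + 1 = i + 1 := by
          rw [add_right_comm (Fin.last (m + 1)) r 1, last_add_one _ (Fin.val_last _), zero_add, h]
        exact (add_right_cancel h3).symm
      rw [h2, add_sub_cancel_right]
  have h2 : i - r + 1 + r = i + 1 := by rw [add_right_comm (i - r) 1 r, sub_add_cancel]
  simp only [h1, sub_add_cancel, h2]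

open Classical in
theorem rot_sum (x : ℕ → R) (m M : ℕ) (P : (Fin (m + 2) → Prop) → Prop)
    (hP : ∀ d t, P (fun i => d (i + t)) ↔ P d) (r : Fin (m + 2)) :
    ∑ w ∈ Wd (m + 2) (M + 1), (if w (Fin.rev r) = M ∧ ∀ j, Fin.rev r < j → w j ≠ M then 1 else 0) *
      ((if P (wdP w) then 1 else 0) * ∏ i, x (w i)) =
    ∑ t ∈ Wd (m + 2) (M + 1), (if t (Fin.last (m + 1)) = M then 1 else 0) *
      (((if ∀ i : Fin (m + 2), i.val < r.val → t i ≠ M then 1 else 0) *
        (if P (DD r t) then 1 else 0)) * ∏ i, x (t i)) := by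
  refine Finset.sum_bij' (i := fun w _ => fun j => w (j - r)) (j := fun t _ => fun j => t (j + r))
    ?_ ?_ ?_ ?_ ?_
  · intro w hw
    rw [mem_Wd] at hw ⊢
    exact fun i => hw _
  · intro w hw
    rw [mem_Wd] at hw ⊢
    exact fun i => hw _
  · intro w _
    funext j
    simp
  · intro w _
    funext j
    simp
  · intro w _
    obtain ⟨t, rfl⟩ : ∃ t : Fin (m + 2) → ℕ, w = fun j => t (j + r) :=
      ⟨fun j => w (j - r), by funext j; simp⟩
    have h1 : (fun j => (fun j => t (j + r)) (j - r)) = t := by funext j; simp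
    rw [h1]
    have h2 : P (wdP fun j => t (j + r)) ↔ P (DD r t) := by
      rw [← hP (wdP fun j => t (j + r)) (-r)]
      have : (fun i => wdP (fun j => t (j + r)) (i + -r)) = DD r t := by
        funext i
        rw [← sub_eq_add_neg]
        exact propext (wdP_rot r t i)
      rw [this]
    have h3 : ∏ i, x (t (i + r)) = ∏ i, x (t i) :=
      Equiv.prod_comp (Equiv.addRight r) (fun i => x (t i))
    rw [h3]
    simp only [h2, cond_iff, rev_add]
    have e1 : ∀ (p q : Prop) [Decidable p] [Decidable q],
        (if p ∧ q then (1 : R) else 0) = (if p then 1 else 0) * (if q then 1 else 0) := by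
      intro p q _ _
      split_ifs <;> simp_all
    rw [e1]
    ring

open Classical in
theorem last_split (m M : ℕ) (w : Fin (m + 2) → ℕ) :
    (∑ r : Fin (m + 2), if w (Fin.rev r) = M ∧ ∀ j, Fin.rev r < j → w j ≠ M then (1 : R) else 0) =
      if ∃ i, w i = M then 1 else 0 := by
  by_cases h : ∃ i, w i = M
  · rw [if_pos h]
    set s : Finset (Fin (m + 2)) := Finset.univ.filter (fun i => w i = M) with hs
    have hne : s.Nonempty := by
      obtain ⟨i, hi⟩ := h
      exact ⟨i, by simp [hs, hi]⟩
    set v0 := s.max' hne with hv0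
    have hv1 : w v0 = M := by
      have := s.max'_mem hne
      simpa [hs] using this
    have hv2 : ∀ j, v0 < j → w j ≠ M := by
      intro j hj hw
      have : j ≤ v0 := s.le_max' j (by simp [hs, hw])
      exact absurd hj (not_lt.2 this)
    rw [Finset.sum_eq_single (Fin.rev v0)]
    · rw [Fin.rev_rev, if_pos ⟨hv1, hv2⟩]
    · intro r _ hr
      rw [if_neg]
      rintro ⟨h1, h2⟩
      rcases lt_trichotomy (Fin.rev r) v0 with h3 | h3 | h3
      · exact h2 v0 h3 hv1
      · apply hr
        rw [← h3, Fin.rev_rev]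
      · exact hv2 _ h3 h1
    · intro h; simp at h
  · rw [if_neg h]
    refine Finset.sum_eq_zero fun r _ => ?_
    rw [if_neg]
    rintro ⟨h1, _⟩
    exact h ⟨_, h1⟩

open Classical in
theorem local_eq (x : ℕ → R) (m M : ℕ) (P : (Fin (m + 2) → Prop) → Prop) (r : Fin (m + 2))
    (u : Fin (m + 1) → ℕ) (hu : ∀ i, u i < M + 1) :
    ((if ∀ i : Fin (m + 2), i.val < r.val →
        (Fin.snoc (α := fun _ => ℕ) u M : Fin (m + 2) → ℕ) i ≠ M then 1 else 0) *
      (if P (DD r (Fin.snoc (α := fun _ => ℕ) u M)) then 1 else 0)) *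
      ∏ i, x ((Fin.snoc (α := fun _ => ℕ) u M : Fin (m + 2) → ℕ) i) =
    ∑ κ : Fin m → Bool, (if P (extk κ) then 1 else 0) *
      (x M * (F R M r.val ((List.ofFn κ).map kd) (sq u) * ∏ i, x (u i))) := by
  have hprod : ∏ i, x ((Fin.snoc (α := fun _ => ℕ) u M : Fin (m + 2) → ℕ) i) =
      (∏ i, x (u i)) * x M := by
    rw [Fin.prod_univ_castSucc]
    simp
  rw [hprod]
  have hiff : (∀ i : Fin (m + 2), i.val < r.val →
        (Fin.snoc (α := fun _ => ℕ) u M : Fin (m + 2) → ℕ) i ≠ M) ↔
      (∀ i : ℕ, i ≤ m → i < r.val → sq u i < M) := by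
    have hr := r.isLt
    constructor
    · intro h i hi hir
      have h1 := h ⟨i, by omega⟩ hir
      rw [snoc_val u _ (by simp only; omega)] at h1
      simp only at h1
      have h2 : sq u i = u ⟨i, by omega⟩ := by
        unfold sq; rw [dif_pos]
      have := hu ⟨i, by omega⟩
      omega
    · intro h i hir
      rw [snoc_val u i (by omega)]
      exact (h i.val (by omega) hir).ne
  simp only [hiff]
  by_cases hb : ∀ i : ℕ, i ≤ m → i < r.val → sq u i < M
  · rw [if_pos hb, one_mul]
    set κ0 : Fin m → Bool := fun j => decide (dd r.val (sq u) j.val) with hκ0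
    have h1 : DD r (Fin.snoc (α := fun _ => ℕ) u M) = extk κ0 := by
      funext i
      exact propext (DD_eq r u (fun i => Nat.lt_succ_iff.1 (hu i)) hb i κ0
        (fun j => by simp [hκ0]))
    have h2 : ∀ κ : Fin m → Bool, F R M r.val ((List.ofFn κ).map kd) (sq u) =
        if κ = κ0 then 1 else 0 := by
      intro κ
      rw [F_closed]
      have h3 : ((∀ i, i ≤ (List.ofFn κ).length → i < r.val → sq u i < M) ∧
        (∀ (i : ℕ) (h : i < (List.ofFn κ).length), ((List.ofFn κ)[i] = true ↔
          dd r.val (sq u) i))) ↔ κ = κ0 := by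
        constructor
        · rintro ⟨_, h4⟩
          funext j
          have := h4 j.val (by simp)
          simp only [List.getElem_ofFn] at this
          simp only [hκ0]
          rw [Bool.eq_iff_iff, decide_eq_true_iff]
          exact this
        · intro h4
          refine ⟨fun i hi => hb i (by simpa using hi), ?_⟩
          intro i hi
          rw [List.getElem_ofFn]
          have h5 : ∀ j, κ j = κ0 j := fun j => congrFun h4 j
          rw [h5]
          simp [hκ0]
      simp only [h3]
    rw [h1]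
    rw [Finset.sum_eq_single κ0]
    · rw [h2, if_pos rfl]
      ring
    · intro κ _ hκ
      rw [h2, if_neg hκ]
      ring
    · intro h; simp at h
  · rw [if_neg hb, zero_mul, zero_mul]
    symm
    refine Finset.sum_eq_zero fun κ _ => ?_
    have hF : F R M r.val ((List.ofFn κ).map kd) (sq u) = 0 := by
      rw [F_closed, if_neg]
      rintro ⟨h, _⟩
      exact hb (fun i hi => h i (by simpa using hi))
    rw [hF]
    ring

open Classical in
/-- The generating function of the words with a rotation invariant condition on the cyclic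
descent pattern. -/
theorem cyc_sum (x : ℕ → R) (m N : ℕ) (P : (Fin (m + 2) → Prop) → Prop)
    (hP : ∀ d t, P (fun i => d (i + t)) ↔ P d) :
    ∑ w ∈ Wd (m + 2) N, (if P (wdP w) then 1 else 0) * ∏ i, x (w i) =
      ∑ κ : Fin m → Bool, (if P (extk κ) then 1 else 0) *
        W x N ((List.ofFn κ).map kd ++ [Kind.J]) := by
  induction N with
  | zero =>
    have h1 : Wd (m + 2) 0 = ∅ := by
      rw [Finset.eq_empty_iff_forall_notMem]
      intro w hw
      rw [mem_Wd] at hw
      exact absurd (hw 0) (Nat.not_lt_zero _)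
    rw [h1, Finset.sum_empty]
    symm
    refine Finset.sum_eq_zero fun κ _ => ?_
    simp [W]
  | succ M ih =>
    have h1 : ∑ w ∈ Wd (m + 2) (M + 1), (if P (wdP w) then 1 else 0) * ∏ i, x (w i) =
        ∑ w ∈ Wd (m + 2) M, (if P (wdP w) then 1 else 0) * ∏ i, x (w i) +
        ∑ w ∈ Wd (m + 2) (M + 1), (if ∃ i, w i = M then 1 else 0) *
          ((if P (wdP w) then 1 else 0) * ∏ i, x (w i)) := by
      have h2 : Wd (m + 2) M = (Wd (m + 2) (M + 1)).filter (fun w => ¬ ∃ i, w i = M) := by
        ext w
        rw [Finset.mem_filter, mem_Wd, mem_Wd]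
        constructor
        · intro h
          refine ⟨fun i => by have := h i; omega, ?_⟩
          rintro ⟨i, hi⟩
          have := h i
          omega
        · rintro ⟨h3, h4⟩ i
          have := h3 i
          have h5 : w i ≠ M := fun h => h4 ⟨i, h⟩
          omega
      rw [h2, Finset.sum_filter, ← Finset.sum_add_distrib]
      refine Finset.sum_congr rfl fun w _ => ?_
      by_cases h3 : ∃ i, w i = M
      · rw [if_neg (not_not.2 h3), if_pos h3, zero_add, one_mul]
      · rw [if_pos h3, if_neg h3, zero_mul, add_zero]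
    have h4 : ∑ w ∈ Wd (m + 2) (M + 1), (if ∃ i, w i = M then 1 else 0) *
          ((if P (wdP w) then 1 else 0) * ∏ i, x (w i)) =
        ∑ κ : Fin m → Bool, (if P (extk κ) then 1 else 0) *
          (W x (M + 1) ((List.ofFn κ).map kd ++ [Kind.J]) -
            W x M ((List.ofFn κ).map kd ++ [Kind.J])) := by
      have h5 : ∀ w ∈ Wd (m + 2) (M + 1), (if ∃ i, w i = M then (1 : R) else 0) *
          ((if P (wdP w) then 1 else 0) * ∏ i, x (w i)) =
          ∑ r : Fin (m + 2), (if w (Fin.rev r) = M ∧ ∀ j, Fin.rev r < j → w j ≠ M then 1 else 0) *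
            ((if P (wdP w) then 1 else 0) * ∏ i, x (w i)) := by
        intro w _
        rw [← last_split m M w, Finset.sum_mul]
      rw [Finset.sum_congr rfl h5, Finset.sum_comm]
      have h6 : ∀ r ∈ (Finset.univ : Finset (Fin (m + 2))), ∑ w ∈ Wd (m + 2) (M + 1),
          (if w (Fin.rev r) = M ∧ ∀ j, Fin.rev r < j → w j ≠ M then 1 else 0) *
            ((if P (wdP w) then 1 else 0) * ∏ i, x (w i)) =
          ∑ κ : Fin m → Bool, (if P (extk κ) then 1 else 0) * (x M *
            ∑ u ∈ Wd (m + 1) (M + 1), F R M r.val ((List.ofFn κ).map kd) (sq u) * ∏ i, x (u i)) := by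
        intro r _
        rw [rot_sum x m M P hP r, sum_Wd_snoc _ (M + 1) M (Nat.lt_succ_self M)]
        rw [Finset.sum_congr rfl (fun u hu => local_eq x m M P r u (mem_Wd.1 hu)), Finset.sum_comm]
        refine Finset.sum_congr rfl fun κ _ => ?_
        rw [Finset.mul_sum, Finset.mul_sum]
      rw [Finset.sum_congr rfl h6, Finset.sum_comm]
      refine Finset.sum_congr rfl fun κ _ => ?_
      rw [← Finset.mul_sum, ← Finset.mul_sum]
      rw [← marked_sum x M m ((List.ofFn κ).map kd) (by simp)]
      rw [Finset.sum_range (fun r => ∑ u ∈ Wd (m + 1) (M + 1),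
        F R M r ((List.ofFn κ).map kd) (sq u) * ∏ i, x (u i))]
    rw [h1, h4, ih, ← Finset.sum_add_distrib]
    refine Finset.sum_congr rfl fun κ _ => ?_
    ring

end Pool.Agent.MP_8317ba_co
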