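import Mathlib

set_option autoImplicit false

namespace Pool.Agent.MP_8317ba_co

open Classical in
/-- Gessel's fundamental quasisymmetric function `F_{n,D}`, as a formal power series with integer
coefficients in the variables `x_0, x_1, ...`: the coefficient of `x^e` is the number of sequences
`i_0 ≤ i_1 ≤ ... ≤ i_{n-1}` with `i_j < i_{j+1}` whenever `j ∈ D`, in which each letter `a` occurs
`e a` times. (Positions are numbered from `0`.) -/
noncomputable def fundamental (n : ℕ) (D : Set ℕ) : MvPowerSeries ℕ ℤ := fun e =>
  (Nat.card {i : Fin n → ℕ // Monotone i ∧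
    (∀ (j : ℕ) (h : j + 1 < n), j ∈ D → i ⟨j, by omega⟩ < i ⟨j + 1, h⟩) ∧
    ∑ j, Finsupp.single (i j) 1 = e} : ℤ)

/-- The descent set of a permutation of `Fin n` in one-line notation: the positions `j` with
`j + 1 < n` and `π j > π (j + 1)`. -/
def Des {n : ℕ} (π : Equiv.Perm (Fin n)) : Set ℕ :=
  {j | ∃ h : j + 1 < n, π ⟨j + 1, h⟩ < π ⟨j, by omega⟩}

open Classical in
/-- The quasisymmetric generating function of a set of permutations. -/
noncomputable def Q {n : ℕ} (A : Set (Equiv.Perm (Fin n))) : MvPowerSeries ℕ ℤ :=
  ∑ π : Equiv.Perm (Fin n), if π ∈ A then fundamental n (Des π) else 0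

/-- The Schur function `s_μ`, as a formal power series: the coefficient of `x^e` is the number of
semistandard Young tableaux of shape `μ` in which each letter `a` occurs `e a` times. -/
noncomputable def schur (μ : YoungDiagram) : MvPowerSeries ℕ ℤ := fun e =>
  (Nat.card {T : SemistandardYoungTableau μ //
    ∑ c ∈ μ.cells, Finsupp.single (T c.1 c.2) 1 = e} : ℤ)

/-- A set of permutations is fine (Schur positive) if its quasisymmetric generating function is
a nonnegative integer combination of Schur functions `s_μ`, `μ` a partition of `n`. -/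
def Fine {n : ℕ} (A : Set (Equiv.Perm (Fin n))) : Prop :=
  ∃ c : YoungDiagram →₀ ℕ, (∀ μ ∈ c.support, μ.card = n) ∧ Q A = c.sum fun μ m => m • schur μ

/-- The one-column grid class: `π` is in it iff the values split into consecutive intervals
`I_0 < I_1 < ... < I_{k-1}` (some possibly empty; `col a` is the index of the interval of the
value `a`) such that the values in `I_i` occur in `π` in increasing order of position if
`v i = true` (sign `+`) and in decreasing order if `v i = false` (sign `-`). -/
def gridClass {k : ℕ} (v : Fin k → Bool) (n : ℕ) : Set (Equiv.Perm (Fin n)) :=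
  {π | ∃ col : Fin n → Fin k, Monotone col ∧ ∀ a b : Fin n, a < b → col a = col b →
    (v (col a) = true → π.symm a < π.symm b) ∧ (v (col a) = false → π.symm b < π.symm a)}

/-- The vertical rotations of a set of permutations: all `c^j * ρ` (apply `ρ` first) with
`0 ≤ j < n`, `ρ ∈ A`, where `c = finRotate n` is the cycle `i ↦ i + 1` modulo `n`. -/
def verticalRotations {n : ℕ} (A : Set (Equiv.Perm (Fin n))) : Set (Equiv.Perm (Fin n)) :=
  {π | ∃ j < n, ∃ ρ ∈ A, π = (finRotate n) ^ j * ρ}

end Pool.Agent.MP_8317ba_co
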