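import Mathlib
import Pool.Agent.MP_8317ba_co.KeyId

set_option autoImplicit false

namespace Pool.Agent.MP_8317ba_co

open Finset

variable {R : Type*} [CommRing R]

/-- Delete the first row. -/
noncomputable def shift (p : ℕ →₀ ℕ) : ℕ →₀ ℕ :=
  p.comapDomain Nat.succ Nat.succ_injective.injOn

@[simp] theorem shift_apply (p : ℕ →₀ ℕ) (i : ℕ) : shift p i = p (i + 1) := rfl

/-- Add a first row. -/
noncomputable def cons (a : ℕ) (q : ℕ →₀ ℕ) : ℕ →₀ ℕ :=
  Finsupp.single 0 a + q.mapDomain Nat.succ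

@[simp] theorem cons_zero (a : ℕ) (q : ℕ →₀ ℕ) : cons a q 0 = a := by
  unfold cons
  rw [Finsupp.add_apply, Finsupp.mapDomain_of_notMem_range _ _ (by simp)]
  simp

@[simp] theorem cons_succ (a : ℕ) (q : ℕ →₀ ℕ) (i : ℕ) : cons a q (i + 1) = q i := by
  unfold cons
  rw [Finsupp.add_apply]
  have := Finsupp.mapDomain_apply Nat.succ_injective q i
  rw [Nat.succ_eq_add_one] at this
  rw [this]
  simp

@[simp] theorem shift_cons (a : ℕ) (q : ℕ →₀ ℕ) : shift (cons a q) = q := by
  ext i; simp

theorem cons_shift (p : ℕ →₀ ℕ) : cons (p 0) (shift p) = p := by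
  ext i
  cases i <;> simp

theorem deg_cons (a : ℕ) (q : ℕ →₀ ℕ) : (cons a q).degree = a + q.degree := by
  unfold cons
  rw [map_add, Finsupp.degree_single, Finsupp.degree_mapDomain]

theorem deg_eq (p : ℕ →₀ ℕ) : p.degree = p 0 + (shift p).degree := by
  conv_lhs => rw [← cons_shift p]
  rw [deg_cons]

theorem deg_mono {p q : ℕ →₀ ℕ} (h : p ≤ q) : p.degree ≤ q.degree := Finsupp.degree_mono h

theorem eq_of_le_of_deg {p q : ℕ →₀ ℕ} (h : p ≤ q) (hd : p.degree = q.degree) : p = q := by
  have h1 : q = p + (q - p) := by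
    ext i
    have := h i
    simp only [Finsupp.add_apply, Finsupp.tsub_apply]
    omega
  have h2 : (q - p).degree = 0 := by
    have := congrArg Finsupp.degree h1
    rw [map_add] at this
    omega
  rw [Finsupp.degree_eq_zero_iff] at h2
  rw [h2, add_zero] at h1
  exact h1.symm

/-- horizontal strips of size `m` on `μ`. -/
noncomputable def Up (μ : ℕ →₀ ℕ) (m : ℕ) : Finset (ℕ →₀ ℕ) :=
  (Finset.Icc μ (cons (μ 0 + m) μ)).filter (fun ν => shift ν ≤ μ ∧ ν.degree = μ.degree + m)

theorem mem_Up {μ ν : ℕ →₀ ℕ} {m : ℕ} :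
    ν ∈ Up μ m ↔ μ ≤ ν ∧ shift ν ≤ μ ∧ ν.degree = μ.degree + m := by
  unfold Up
  rw [Finset.mem_filter, Finset.mem_Icc]
  constructor
  · rintro ⟨⟨h1, _⟩, h2, h3⟩
    exact ⟨h1, h2, h3⟩
  · rintro ⟨h1, h2, h3⟩
    refine ⟨⟨h1, ?_⟩, h2, h3⟩
    intro i
    cases i with
    | zero =>
      rw [cons_zero]
      have h4 := deg_eq ν
      have h5 := deg_eq μ
      have h6 : (shift μ).degree ≤ (shift ν).degree := deg_mono (fun j => h1 (j + 1))
      omega
    | succ i =>
      rw [cons_succ]
      exact h2 i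

theorem deg_inf_sup (p q : ℕ →₀ ℕ) : (p ⊓ q).degree + (p ⊔ q).degree = p.degree + q.degree := by
  rw [← map_add, ← map_add]
  congr 1
  ext i
  simp only [Finsupp.add_apply, Finsupp.inf_apply, Finsupp.sup_apply]
  exact min_add_max _ _

/-- Schur polynomial in the first `N` variables, by chains of horizontal strips. -/
noncomputable def S (x : ℕ → R) : ℕ → (ℕ →₀ ℕ) → R
  | 0, p => if p = 0 then 1 else 0
  | N + 1, p => ∑ κ ∈ Finset.Icc (shift p) p, x N ^ (p.degree - κ.degree) * S x N κ

theorem h_expand (x : ℕ → R) (N m : ℕ) :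
    H x (N + 1) m 0 = ∑ i ∈ range (m + 1), x N ^ i * H x N (m - i) 0 := by
  induction m with
  | zero => simp [H_zero]
  | succ m ih =>
    have h := H_diff x N m 0 (Nat.zero_le _)
    rw [Finset.sum_range_succ']
    rw [eq_add_of_sub_eq h, ih, Finset.mul_sum]
    congr 1
    · refine Finset.sum_congr rfl fun i _ => ?_
      rw [show m + 1 - (i + 1) = m - i by omega]
      ring
    · simp

theorem H_zero_vars (x : ℕ → R) (m a : ℕ) : H x 0 m a = if m = 0 then 1 else 0 := by
  cases m with
  | zero => simp [H_zero]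
  | succ m => simp [H_succ]

/-- forward toggle -/
noncomputable def tog (l μ ν : ℕ →₀ ℕ) : ℕ →₀ ℕ := (l ⊓ μ + shift (l ⊔ μ)) - ν

theorem tog_apply (l μ ν : ℕ →₀ ℕ) (i : ℕ) :
    tog l μ ν i = min (l i) (μ i) + max (l (i + 1)) (μ (i + 1)) - ν i := by
  simp [tog]

theorem deg_tog {l μ ν : ℕ →₀ ℕ} (h : ν ≤ l ⊓ μ + shift (l ⊔ μ)) :
    (tog l μ ν).degree + ν.degree + max (l 0) (μ 0) = l.degree + μ.degree := by
  have h1 : tog l μ ν + ν = l ⊓ μ + shift (l ⊔ μ) := by
    ext i
    have := h i
    simp only [Finsupp.add_apply, shift_apply, Finsupp.inf_apply, Finsupp.sup_apply] at this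
    simp only [Finsupp.add_apply, shift_apply, Finsupp.inf_apply, Finsupp.sup_apply, tog_apply]
    omega
  have h2 := congrArg Finsupp.degree h1
  rw [map_add, map_add] at h2
  have h3 := deg_eq (l ⊔ μ)
  have h4 := deg_inf_sup l μ
  simp only [Finsupp.sup_apply] at h3
  omega

theorem pieri (x : ℕ → R) (N m : ℕ) (μ : ℕ →₀ ℕ) :
    H x N m 0 * S x N μ = ∑ ν ∈ Up μ m, S x N ν := by
  induction N generalizing m μ with
  | zero =>
    rw [H_zero_vars]
    simp only [S]
    rw [Finset.sum_ite_eq']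
    simp only [mem_Up]
    have hs0 : shift 0 = 0 := by ext i; simp
    by_cases h1 : m = 0 <;> by_cases h2 : μ = 0
    · subst h1; subst h2; simp [hs0]
    · rw [if_neg h2, mul_zero, if_neg]
      rintro ⟨h3, _⟩
      exact h2 (le_antisymm h3 (by intro i; simp))
    · rw [if_neg h1, zero_mul, if_neg]
      rintro ⟨h3, h4, h5⟩
      rw [h2] at h5
      simp at h5
      exact h1 h5.symm
    · rw [if_neg h2, mul_zero, if_neg]
      rintro ⟨h3, _⟩
      exact h2 (le_antisymm h3 (by intro i; simp))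
  | succ N ih =>
    rw [h_expand]
    simp only [S]
    rw [Finset.sum_mul]
    have h1 : ∀ i ∈ range (m + 1), x N ^ i * H x N (m - i) 0 *
        ∑ κ ∈ Finset.Icc (shift μ) μ, x N ^ (μ.degree - κ.degree) * S x N κ =
        ∑ κ ∈ Finset.Icc (shift μ) μ, ∑ l ∈ Up κ (m - i),
          x N ^ (i + (μ.degree - κ.degree)) * S x N l := by
      intro i _
      rw [Finset.mul_sum]
      refine Finset.sum_congr rfl fun κ _ => ?_
      rw [← Finset.mul_sum, ← ih]
      ring
    rw [Finset.sum_congr rfl h1]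
    rw [Finset.sum_sigma', Finset.sum_sigma', Finset.sum_sigma']
    symm
    refine Finset.sum_bij'
      (i := fun (y : Σ _ : ℕ →₀ ℕ, ℕ →₀ ℕ) _ =>
        (⟨⟨y.1 0 - max (y.2 0) (μ 0), tog y.2 μ (shift y.1)⟩, y.2⟩ :
          Σ _ : (Σ _ : ℕ, ℕ →₀ ℕ), ℕ →₀ ℕ))
      (j := fun (z : Σ _ : (Σ _ : ℕ, ℕ →₀ ℕ), ℕ →₀ ℕ) _ =>
        (⟨cons (z.1.1 + max (z.2 0) (μ 0)) (tog z.2 μ z.1.2), z.2⟩ : Σ _ : ℕ →₀ ℕ, ℕ →₀ ℕ))
      ?_ ?_ ?_ ?_ ?_
    · rintro ⟨ν, l⟩ hy
      simp only [Finset.mem_sigma, mem_Up, Finset.mem_Icc] at hy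
      obtain ⟨⟨h1, h2, h3⟩, h4, h5⟩ := hy
      simp only [Finset.mem_sigma, mem_Up, Finset.mem_Icc, Finset.mem_range]
      have hle : shift ν ≤ l ⊓ μ + shift (l ⊔ μ) := by
        intro i
        have a1 := h2 i
        have a2 := h4 i
        simp only [Finsupp.add_apply, shift_apply, Finsupp.inf_apply, Finsupp.sup_apply] at *
        omega
      have hd := deg_tog hle
      have hd2 := deg_eq ν
      have h10 := h1 0
      have h50 := h5 0
      have hpt : ∀ i, μ (i+1) ≤ tog l μ (shift ν) i ∧ tog l μ (shift ν) i ≤ μ i ∧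
          l (i+1) ≤ tog l μ (shift ν) i ∧ tog l μ (shift ν) i ≤ l i := by
        intro i
        have a1 := h2 i
        have a2 := h4 i
        have a3 := h1 (i + 1)
        have a4 := h5 (i + 1)
        rw [tog_apply]
        simp only [shift_apply] at *
        omega
      have hk : (tog l μ (shift ν)).degree ≤ l.degree := deg_mono (fun i => (hpt i).2.2.2)
      refine ⟨⟨?_, fun i => (hpt i).1, fun i => (hpt i).2.1⟩,
        fun i => (hpt i).2.2.2, fun i => (hpt i).2.2.1, ?_⟩
      · omega
      · omega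
    · rintro ⟨⟨i, κ⟩, l⟩ hz
      simp only [Finset.mem_sigma, mem_Up, Finset.mem_Icc, Finset.mem_range] at hz
      obtain ⟨⟨hi, h1, h2⟩, h3, h4, h5⟩ := hz
      simp only [Finset.mem_sigma, mem_Up, Finset.mem_Icc]
      have hle : κ ≤ l ⊓ μ + shift (l ⊔ μ) := by
        intro i
        have a1 := h2 i
        have a2 := h3 i
        simp only [Finsupp.add_apply, shift_apply, Finsupp.inf_apply, Finsupp.sup_apply] at *
        omega
      have hd := deg_tog hle
      have hpt : ∀ i, μ (i+1) ≤ tog l μ κ i ∧ tog l μ κ i ≤ μ i ∧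
          l (i+1) ≤ tog l μ κ i ∧ tog l μ κ i ≤ l i := by
        intro i
        have a1 := h1 i
        have a2 := h2 i
        have a3 := h3 i
        have a4 := h4 i
        rw [tog_apply]
        simp only [shift_apply] at *
        omega
      refine ⟨⟨?_, ?_, ?_⟩, ?_, ?_⟩
      · intro j
        cases j with
        | zero => rw [cons_zero]; omega
        | succ j => rw [cons_succ]; exact (hpt j).1
      · rw [shift_cons]
        exact fun j => (hpt j).2.1
      · rw [deg_cons]
        omega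
      · rw [shift_cons]
        exact fun j => (hpt j).2.2.2
      · intro j
        cases j with
        | zero => rw [cons_zero]; omega
        | succ j => rw [cons_succ]; exact (hpt j).2.2.1
    · rintro ⟨ν, l⟩ hy
      simp only [Finset.mem_sigma, mem_Up, Finset.mem_Icc] at hy
      obtain ⟨⟨h1, h2, h3⟩, h4, h5⟩ := hy
      simp only [Sigma.mk.injEq, heq_eq_eq, and_true]
      ext j
      cases j with
      | zero =>
        rw [cons_zero]
        have := h1 0
        have := h5 0
        omega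
      | succ j =>
        rw [cons_succ, tog_apply, tog_apply]
        have a1 := h2 j
        have a2 := h4 j
        have a3 := h1 (j + 1)
        have a4 := h5 (j + 1)
        simp only [shift_apply] at *
        omega
    · rintro ⟨⟨i, κ⟩, l⟩ hz
      simp only [Finset.mem_sigma, mem_Up, Finset.mem_Icc, Finset.mem_range] at hz
      obtain ⟨⟨hi, h1, h2⟩, h3, h4, h5⟩ := hz
      simp only [Sigma.mk.injEq, heq_eq_eq, and_true, cons_zero, shift_cons]
      refine ⟨by omega, ?_⟩
      ext j
      rw [tog_apply, tog_apply]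
      have a1 := h1 j
      have a2 := h2 j
      have a3 := h3 j
      have a4 := h4 j
      simp only [shift_apply] at *
      omega
    · rintro ⟨ν, l⟩ hy
      simp only [Finset.mem_sigma, mem_Up, Finset.mem_Icc] at hy
      obtain ⟨⟨h1, h2, h3⟩, h4, h5⟩ := hy
      have hle : shift ν ≤ l ⊓ μ + shift (l ⊔ μ) := by
        intro i
        have a1 := h2 i
        have a2 := h4 i
        simp only [Finsupp.add_apply, shift_apply, Finsupp.inf_apply, Finsupp.sup_apply] at *
        omega
      have hd := deg_tog hle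
      have hd2 := deg_eq ν
      have h10 := h1 0
      have h50 := h5 0
      have hk : (tog l μ (shift ν)).degree ≤ μ.degree := by
        refine deg_mono (fun i => ?_)
        have a1 := h2 i
        have a2 := h4 i
        have a3 := h1 (i + 1)
        have a4 := h5 (i + 1)
        rw [tog_apply]
        simp only [shift_apply] at *
        omega
      have hl := deg_mono h5
      simp only
      congr 2
      omega

end Pool.Agent.MP_8317ba_co
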