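import Mathlib
import Pool.Agent.MP_8317ba_co.Pieri

set_option autoImplicit false

namespace Pool.Agent.MP_8317ba_co

open Finset

variable {R : Type*} [CommRing R]

/-- `p` is a partition (weakly decreasing). -/
def IsPart (p : ℕ →₀ ℕ) : Prop := shift p ≤ p

/-- conditions on the rows of consecutive boxes. -/
def tau (R : Type*) [CommRing R] : Kind → ℕ → ℕ → R
  | Kind.A, a, b => if b ≤ a then 1 else 0
  | Kind.D, a, b => if a < b then 1 else 0
  | Kind.J, _, _ => 1

theorem tau_D (a b : ℕ) : tau R Kind.D a b = tau R Kind.J a b - tau R Kind.A a b := by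
  simp only [tau]
  split_ifs with h1 h2 h2 <;> first | omega | simp

open Classical in
/-- sums over paths of partitions, adding one box at a time. -/
noncomputable def V (L : ℕ) (φ : (ℕ →₀ ℕ) → R) : List Kind → (ℕ →₀ ℕ) → ℕ → R
  | [], μ, _ => φ μ
  | k :: ks, μ, a => ∑ b ∈ range L, tau R k a b *
      ((if IsPart (μ + Finsupp.single b 1) then 1 else 0) * V L φ ks (μ + Finsupp.single b 1) b)

theorem isPart_of_mem_Up {μ ν : ℕ →₀ ℕ} {m : ℕ} (h : ν ∈ Up μ m) : IsPart ν := by
  rw [mem_Up] at h
  exact h.2.1.trans h.1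

theorem IsPart.antitone {p : ℕ →₀ ℕ} (h : IsPart p) {i j : ℕ} (hij : i ≤ j) : p j ≤ p i := by
  induction j, hij using Nat.le_induction with
  | base => exact le_rfl
  | succ j _ ih => exact (h j).trans ih

theorem Up_zero {μ : ℕ →₀ ℕ} (hμ : IsPart μ) : Up μ 0 = {μ} := by
  ext ν
  rw [mem_Up, Finset.mem_singleton]
  constructor
  · rintro ⟨h1, _, h3⟩
    exact (eq_of_le_of_deg h1 (by omega)).symm
  · rintro rfl
    exact ⟨le_rfl, hμ, by omega⟩

/-- `b` is the lowest row in which `ν` and `μ` differ. -/
def Top (μ ν : ℕ →₀ ℕ) (b : ℕ) : Prop := μ b < ν b ∧ ∀ c, b < c → ν c = μ c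

theorem exists_top {μ ν : ℕ →₀ ℕ} {m : ℕ} (h : ν ∈ Up μ (m + 1)) : ∃ b, Top μ ν b := by
  rw [mem_Up] at h
  obtain ⟨h1, h2, h3⟩ := h
  by_contra hcon
  have key : ∀ n, ∀ c, (∀ c', c ≤ c' → ν c' = μ c') → (c ≤ n) → (∀ c', ν c' = μ c') := by
    intro n c hc hcn
    induction c with
    | zero => exact fun c' => hc c' (Nat.zero_le _)
    | succ c ih =>
      refine ih (fun c' hc' => ?_) (by omega)
      rcases Nat.lt_or_ge c c' with h | h
      · exact hc c' h
      · have : c' = c := by omega
        subst this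
        by_contra hne
        exact hcon ⟨c', lt_of_le_of_ne (h1 c') (Ne.symm hne), fun d hd => hc d hd⟩
  obtain ⟨B, hB⟩ : ∃ B, ∀ c, B ≤ c → ν c = 0 := by
    refine ⟨ν.support.sup id + 1, fun c hc => ?_⟩
    by_contra hne
    have : c ∈ ν.support := Finsupp.mem_support_iff.2 hne
    have := Finset.le_sup (f := id) this
    simp only [id] at this
    omega
  have := key B B (fun c' hc' => by
    have h4 := hB c' hc'
    have h5 := h1 c'
    omega) le_rfl
  have h6 : ν = μ := by ext c; exact this c
  rw [h6] at h3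
  omega

theorem top_unique {μ ν : ℕ →₀ ℕ} {b c : ℕ} (hb : Top μ ν b) (hc : Top μ ν c) : b = c := by
  rcases Nat.lt_trichotomy b c with h | h | h
  · have := hb.2 c h
    have := hc.1
    omega
  · exact h
  · have := hc.2 b h
    have := hb.1
    omega

theorem le_deg_of_pos {p : ℕ →₀ ℕ} (hp : IsPart p) {b : ℕ} (hb : 0 < p b) : b + 1 ≤ p.degree := by
  induction b generalizing p with
  | zero =>
    have := deg_eq p
    omega
  | succ b ih =>
    have h1 := deg_eq p
    have h2 : IsPart (shift p) := fun i => hp (i + 1)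
    have h3 := ih h2 hb
    have h4 : 0 < p 0 := lt_of_lt_of_le hb (hp.antitone (Nat.zero_le _))
    omega

open Classical in
theorem L1 (φ : (ℕ →₀ ℕ) → R) (μ : ℕ →₀ ℕ) (hμ : IsPart μ) (m b : ℕ) :
    (if IsPart (μ + Finsupp.single b 1) then 1 else 0) *
      (∑ ν ∈ Up (μ + Finsupp.single b 1) m,
        (if ∀ c, b < c → ν c = (μ + Finsupp.single b 1 : ℕ →₀ ℕ) c then 1 else 0) * φ ν) =
    ∑ ν ∈ Up μ (m + 1), (if Top μ ν b then 1 else 0) * φ ν := by
  have e1 : ∀ c, (μ + Finsupp.single b 1 : ℕ →₀ ℕ) c = if c = b then μ c + 1 else μ c := by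
    intro c
    rw [Finsupp.add_apply, Finsupp.single_apply]
    by_cases h : c = b
    · subst h; simp
    · rw [if_neg (Ne.symm h), if_neg h, add_zero]
  have e2 : (μ + Finsupp.single b 1).degree = μ.degree + 1 := by
    rw [map_add, Finsupp.degree_single]
  by_cases hp : IsPart (μ + Finsupp.single b 1)
  · rw [if_pos hp, one_mul]
    have h1 : ∀ ν, (ν ∈ Up (μ + Finsupp.single b 1) m ∧
        ∀ c, b < c → ν c = (μ + Finsupp.single b 1 : ℕ →₀ ℕ) c) ↔ (ν ∈ Up μ (m + 1) ∧ Top μ ν b) := by
      intro ν
      rw [mem_Up, mem_Up]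
      constructor
      · rintro ⟨⟨h1, h2, h3⟩, h4⟩
        refine ⟨⟨?_, ?_, by omega⟩, ?_, ?_⟩
        · intro i
          have := h1 i
          rw [e1] at this
          split_ifs at this <;> omega
        · intro i
          have h5 := h2 i
          rw [e1] at h5
          split_ifs at h5 with h6
          · subst h6
            have h7 := h4 (i + 1) (by omega)
            rw [e1, if_neg (by omega)] at h7
            have h8 := hμ i
            simp only [shift_apply] at *
            omega
          · exact h5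
        · have := h1 b
          rw [e1, if_pos rfl] at this
          omega
        · intro c hc
          have := h4 c hc
          rw [e1, if_neg (by omega)] at this
          exact this
      · rintro ⟨⟨h1, h2, h3⟩, h4, h5⟩
        refine ⟨⟨?_, ?_, by omega⟩, ?_⟩
        · intro i
          rw [e1]
          split_ifs with h6
          · subst h6; exact h4
          · exact h1 i
        · intro i
          have := h2 i
          rw [e1]
          split_ifs with h6
          · omega
          · exact this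
        · intro c hc
          rw [e1, if_neg (by omega)]
          exact h5 c hc
    have h2 : ∀ (s : Finset (ℕ →₀ ℕ)) (q : (ℕ →₀ ℕ) → Prop),
        ∑ ν ∈ s, (if q ν then (1 : R) else 0) * φ ν = ∑ ν ∈ s.filter q, φ ν := by
      intro s q
      rw [Finset.sum_filter]
      refine Finset.sum_congr rfl fun ν _ => ?_
      split_ifs <;> simp
    rw [h2, h2]
    refine Finset.sum_congr ?_ fun _ _ => rfl
    ext ν
    rw [Finset.mem_filter, Finset.mem_filter]
    exact h1 ν
  · rw [if_neg hp, zero_mul]
    symm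
    refine Finset.sum_eq_zero fun ν hν => ?_
    rw [if_neg, zero_mul]
    rintro ⟨h4, h5⟩
    rw [mem_Up] at hν
    obtain ⟨h1, h2, h3⟩ := hν
    apply hp
    intro i
    rw [shift_apply, e1, e1]
    have a1 := hμ i
    have a2 := h2 i
    simp only [shift_apply] at a1 a2
    split_ifs with h6 h7 h7
    · omega
    · subst h6
      omega
    · omega
    · exact a1

open Classical in
theorem V_A (L : ℕ) (φ : (ℕ →₀ ℕ) → R) (m : ℕ) (μ : ℕ →₀ ℕ) (hμ : IsPart μ) (a : ℕ)
    (ha : a < L) :
    V L φ (List.replicate m Kind.A) μ a =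
      ∑ ν ∈ Up μ m, (if ∀ c, a < c → ν c = μ c then 1 else 0) * φ ν := by
  induction m generalizing μ a with
  | zero =>
    rw [Up_zero hμ]
    simp [V]
  | succ m ih =>
    rw [List.replicate_succ]
    have h1 : ∀ b ∈ range L, tau R Kind.A a b *
        ((if IsPart (μ + Finsupp.single b 1) then 1 else 0) *
          V L φ (List.replicate m Kind.A) (μ + Finsupp.single b 1) b) =
        ∑ ν ∈ Up μ (m + 1), (if b ≤ a then 1 else 0) * ((if Top μ ν b then 1 else 0) * φ ν) := by
      intro b hb
      rw [← Finset.mul_sum, ← L1 φ μ hμ m b]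
      simp only [tau]
      congr 1
      by_cases hp : IsPart (μ + Finsupp.single b 1)
      · rw [ih _ hp b (mem_range.1 hb)]
      · rw [if_neg hp, zero_mul, zero_mul]
    show ∑ b ∈ range L, _ = _
    rw [Finset.sum_congr rfl h1, Finset.sum_comm]
    refine Finset.sum_congr rfl fun ν hν => ?_
    obtain ⟨b0, hb0⟩ := exists_top hν
    have h2 : ∀ b ∈ range L, (if b ≤ a then (1 : R) else 0) * ((if Top μ ν b then 1 else 0) * φ ν) =
        if b = b0 then (if b0 ≤ a then φ ν else 0) else 0 := by
      intro b _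
      by_cases hb : b = b0
      · subst hb
        rw [if_pos hb0, if_pos rfl]
        split_ifs <;> simp
      · rw [if_neg hb, if_neg (fun h => hb (top_unique h hb0))]
        simp
    rw [Finset.sum_congr rfl h2, Finset.sum_ite_eq']
    by_cases hba : b0 ≤ a
    · rw [if_pos (mem_range.2 (by omega)), if_pos hba, if_pos, one_mul]
      intro c hc
      exact hb0.2 c (by omega)
    · rw [if_neg hba, if_neg (c := ∀ c, a < c → ν c = μ c), zero_mul, ite_self]
      intro h
      have h3 := h b0 (by omega)
      have h4 := hb0.1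
      omega

open Classical in
theorem V_JA (L : ℕ) (φ : (ℕ →₀ ℕ) → R) (m : ℕ) (μ : ℕ →₀ ℕ) (hμ : IsPart μ) (a : ℕ)
    (hL : μ.degree + m + 1 ≤ L) :
    V L φ (Kind.J :: List.replicate m Kind.A) μ a = ∑ ν ∈ Up μ (m + 1), φ ν := by
  have h1 : ∀ b ∈ range L, tau R Kind.J a b *
      ((if IsPart (μ + Finsupp.single b 1) then 1 else 0) *
        V L φ (List.replicate m Kind.A) (μ + Finsupp.single b 1) b) =
      ∑ ν ∈ Up μ (m + 1), ((if Top μ ν b then 1 else 0) * φ ν) := by
    intro b hb
    rw [← L1 φ μ hμ m b]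
    simp only [tau, one_mul]
    by_cases hp : IsPart (μ + Finsupp.single b 1)
    · rw [V_A L φ m _ hp b (mem_range.1 hb)]
    · rw [if_neg hp, zero_mul, zero_mul]
  show ∑ b ∈ range L, _ = _
  rw [Finset.sum_congr rfl h1, Finset.sum_comm]
  refine Finset.sum_congr rfl fun ν hν => ?_
  obtain ⟨b0, hb0⟩ := exists_top hν
  have h2 : ∀ b ∈ range L, ((if Top μ ν b then 1 else 0) * φ ν) =
      if b = b0 then φ ν else 0 := by
    intro b _
    by_cases hb : b = b0
    · subst hb
      rw [if_pos hb0, if_pos rfl, one_mul]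
    · rw [if_neg hb, if_neg (fun h => hb (top_unique h hb0)), zero_mul]
  rw [Finset.sum_congr rfl h2, Finset.sum_ite_eq', if_pos]
  rw [mem_range]
  have h3 := le_deg_of_pos (isPart_of_mem_Up hν) (b := b0) (by have := hb0.1; omega)
  rw [mem_Up] at hν
  omega

theorem V_J_indep (L : ℕ) (φ : (ℕ →₀ ℕ) → R) (ks : List Kind) (μ : ℕ →₀ ℕ) (a a' : ℕ) :
    V L φ (Kind.J :: ks) μ a = V L φ (Kind.J :: ks) μ a' := rfl

theorem V_A_J (L : ℕ) (φ : (ℕ →₀ ℕ) → R) (m : ℕ) (ks : List Kind) (μ : ℕ →₀ ℕ) (a : ℕ) :
    V L φ (List.replicate m Kind.A ++ Kind.J :: ks) μ a =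
      V L (fun ν => V L φ (Kind.J :: ks) ν 0) (List.replicate m Kind.A) μ a := by
  induction m generalizing μ a with
  | zero => rfl
  | succ m ih =>
    rw [List.replicate_succ, List.cons_append]
    unfold V
    refine Finset.sum_congr rfl fun b _ => ?_
    rw [ih]

theorem V_JA_J (L : ℕ) (φ : (ℕ →₀ ℕ) → R) (m : ℕ) (ks : List Kind) (μ : ℕ →₀ ℕ) (a : ℕ) :
    V L φ (Kind.J :: (List.replicate m Kind.A ++ Kind.J :: ks)) μ a =
      V L (fun ν => V L φ (Kind.J :: ks) ν 0) (Kind.J :: List.replicate m Kind.A) μ a := by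
  show ∑ b ∈ range L, _ = ∑ b ∈ range L, _
  refine Finset.sum_congr rfl fun b _ => ?_
  rw [V_A_J]

theorem V_AJ (x : ℕ → R) (L N : ℕ) (ks : List Kind) (h : ∀ k ∈ ks, k ≠ Kind.D)
    (μ : ℕ →₀ ℕ) (hμ : IsPart μ) (hL : μ.degree + ks.length + 1 ≤ L) :
    V L (S x N) (Kind.J :: ks) μ 0 = W x N ks * S x N μ := by
  induction hn : ks.length using Nat.strong_induction_on generalizing ks μ with
  | _ n ih =>
    subst hn
    rcases decomp ks h with h1 | ⟨m, ks', h1, h2, h3⟩
    · rw [h1]
      rw [V_JA L (S x N) ks.length μ hμ 0 (by omega), ← pieri, W_replicate]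
    · have hlen : ks.length = m + (ks'.length + 1) := by rw [h1]; simp
      rw [h1, V_JA_J, V_JA L _ m μ hμ 0 (by omega), W_append_J]
      have : ∀ ν ∈ Up μ (m + 1), V L (S x N) (Kind.J :: ks') ν 0 = W x N ks' * S x N ν := by
        intro ν hν
        refine ih _ h3 ks' h2 ν (isPart_of_mem_Up hν) ?_ rfl
        rw [mem_Up] at hν
        omega
      rw [Finset.sum_congr rfl this, ← Finset.mul_sum, ← pieri]
      ring

theorem V_D (L : ℕ) (φ : (ℕ →₀ ℕ) → R) (pre post : List Kind) (μ : ℕ →₀ ℕ) (a : ℕ) :
    V L φ (pre ++ Kind.D :: post) μ a =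
      V L φ (pre ++ Kind.J :: post) μ a - V L φ (pre ++ Kind.A :: post) μ a := by
  induction pre generalizing μ a with
  | nil =>
    simp only [List.nil_append, V, ← Finset.sum_sub_distrib]
    refine Finset.sum_congr rfl fun b _ => ?_
    rw [tau_D]
    ring
  | cons k pre ih =>
    simp only [List.cons_append, V, ← Finset.sum_sub_distrib]
    refine Finset.sum_congr rfl fun b _ => ?_
    rw [ih]
    ring

theorem V_all' (x : ℕ → R) (L N : ℕ) (post pre : List Kind) (h : ∀ k ∈ pre, k ≠ Kind.D)
    (μ : ℕ →₀ ℕ) (hμ : IsPart μ) (hL : μ.degree + (pre ++ post).length + 1 ≤ L) :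
    V L (S x N) (Kind.J :: (pre ++ post)) μ 0 = W x N (pre ++ post) * S x N μ := by
  induction post generalizing pre with
  | nil => simpa using V_AJ x L N pre h μ hμ (by simpa using hL)
  | cons k post ih =>
    have hA : V L (S x N) (Kind.J :: (pre ++ Kind.A :: post)) μ 0 =
        W x N (pre ++ Kind.A :: post) * S x N μ := by
      have := ih (pre ++ [Kind.A]) (by
        intro k hk
        rcases List.mem_append.1 hk with hk | hk
        · exact h k hk
        · simp only [List.mem_singleton] at hk; rw [hk]; decide)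
        (by simp only [List.length_append, List.length_cons, List.length_nil] at *; omega)
      simpa using this
    have hJ : V L (S x N) (Kind.J :: (pre ++ Kind.J :: post)) μ 0 =
        W x N (pre ++ Kind.J :: post) * S x N μ := by
      have := ih (pre ++ [Kind.J]) (by
        intro k hk
        rcases List.mem_append.1 hk with hk | hk
        · exact h k hk
        · simp only [List.mem_singleton] at hk; rw [hk]; decide)
        (by simp only [List.length_append, List.length_cons, List.length_nil] at *; omega)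
      simpa using this
    cases k with
    | A => exact hA
    | J => exact hJ
    | D =>
      have := V_D L (S x N) (Kind.J :: pre) post μ 0
      simp only [List.cons_append] at this
      rw [this, hA, hJ, W_D]
      ring

theorem S_zero (x : ℕ → R) (N : ℕ) : S x N 0 = 1 := by
  induction N with
  | zero => simp [S]
  | succ N ih =>
    have hs0 : shift 0 = 0 := by ext i; simp
    simp only [S]
    rw [hs0, Finset.Icc_self, Finset.sum_singleton, ih]
    simp

theorem isPart_zero : IsPart 0 := by
  intro i; simp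

/-- Robinson-Schensted for patterns. -/
theorem W_eq_V (x : ℕ → R) (N : ℕ) (ks : List Kind) :
    W x N ks = V (ks.length + 1) (S x N) (Kind.J :: ks) 0 0 := by
  have := V_all' x (ks.length + 1) N ks [] (by simp) 0 isPart_zero (by simp)
  rw [List.nil_append] at this
  rw [this, S_zero, mul_one]

theorem V_expand (L : ℕ) (ks : List Kind) (μ : ℕ →₀ ℕ) (hμ : IsPart μ) (a : ℕ) :
    ∃ c : (ℕ →₀ ℕ) →₀ ℕ, (∀ ν ∈ c.support, IsPart ν ∧ ν.degree = μ.degree + ks.length) ∧
      ∀ φ : (ℕ →₀ ℕ) → R, V L φ ks μ a = c.sum fun ν m => (m : R) * φ ν := by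
  classical
  induction ks generalizing μ a with
  | nil =>
    refine ⟨Finsupp.single μ 1, ?_, ?_⟩
    · intro ν hν
      have : ν = μ := by
        have := Finsupp.support_single_subset hν
        simpa using this
      subst this
      exact ⟨hμ, by simp⟩
    · intro φ
      rw [Finsupp.sum_single_index] <;> simp [V]
  | cons k ks ih =>
    have h1 : ∀ b : ℕ, ∃ c : (ℕ →₀ ℕ) →₀ ℕ,
        (∀ ν ∈ c.support, IsPart ν ∧ ν.degree = μ.degree + (k :: ks).length) ∧
        ∀ φ : (ℕ →₀ ℕ) → R, tau R k a b * ((if IsPart (μ + Finsupp.single b 1) then 1 else 0) *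
          V L φ ks (μ + Finsupp.single b 1) b) = c.sum fun ν m => (m : R) * φ ν := by
      intro b
      have htau : tau R k a b = 0 ∨ tau R k a b = 1 := by
        cases k <;> simp only [tau] <;> try split_ifs
        all_goals simp
      by_cases hp : IsPart (μ + Finsupp.single b 1)
      · rcases htau with h0 | h0
        · exact ⟨0, by simp, fun φ => by rw [h0]; simp⟩
        · obtain ⟨c, hc1, hc2⟩ := ih _ hp b
          refine ⟨c, ?_, ?_⟩
          · intro ν hν
            obtain ⟨h3, h4⟩ := hc1 ν hν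
            refine ⟨h3, ?_⟩
            rw [h4, map_add, Finsupp.degree_single, List.length_cons]
            ring
          · intro φ
            rw [h0, if_pos hp, one_mul, one_mul, hc2]
      · exact ⟨0, by simp, fun φ => by rw [if_neg hp]; simp⟩
    choose c hc1 hc2 using h1
    refine ⟨∑ b ∈ range L, c b, ?_, ?_⟩
    · intro ν hν
      have := Finsupp.support_finsetSum hν
      simp only [Finset.mem_biUnion] at this
      obtain ⟨b, _, hb⟩ := this
      exact hc1 b ν hb
    · intro φ
      simp only [V]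
      rw [Finset.sum_congr rfl (fun b _ => hc2 b φ)]
      rw [← Finsupp.sum_finsetSum_index]
      · intro ν; simp
      · intro ν m1 m2; push_cast; ring

end Pool.Agent.MP_8317ba_co
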