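import Mathlib
import Pool.Agent.MP_8317ba_co.Lattice
import Pool.Agent.MP_8317ba_co.Defs

set_option autoImplicit false

namespace Pool.Agent.MP_8317ba_co

open Finset

variable {R : Type*} [CommRing R]

/-- raw semistandard tableaux of shape `p` with entries `< N`. -/
def IsT (N : ℕ) (p : ℕ →₀ ℕ) (t : ℕ → ℕ → ℕ) : Prop :=
  (∀ i j, j < p i → t i j < N) ∧ (∀ i j, p i ≤ j → t i j = 0) ∧
  (∀ i j1 j2, j1 < j2 → j2 < p i → t i j1 ≤ t i j2) ∧
  (∀ i1 i2 j, i1 < i2 → j < p i2 → t i1 j < t i2 j)

theorem finite_IsT (N : ℕ) (p : ℕ →₀ ℕ) : {t | IsT N p t}.Finite := by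
  classical
  set B : ℕ := p.support.sup (fun i => i + p i + 1) + 1 with hB
  have hB1 : ∀ i, 0 < p i → i < B ∧ p i < B := by
    intro i hi
    have h1 : i ∈ p.support := Finsupp.mem_support_iff.2 (by omega)
    have h2 : i + p i + 1 ≤ p.support.sup (fun i => i + p i + 1) :=
      Finset.le_sup (f := fun i => i + p i + 1) h1
    constructor <;> omega
  refine Set.Finite.subset (Set.finite_range
    (fun f : Fin B → Fin B → Fin (N + 1) => fun i j =>
      if h : i < B ∧ j < B then (f ⟨i, h.1⟩ ⟨j, h.2⟩ : ℕ) else 0)) ?_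
  rintro t ⟨h1, h2, _, _⟩
  refine ⟨fun i j => ⟨min (t i j) N, by omega⟩, ?_⟩
  funext i j
  simp only
  by_cases hj : j < p i
  · have h3 := hB1 i (by omega)
    have h4 := h1 i j hj
    rw [dif_pos ⟨h3.1, by omega⟩]
    omega
  · have h4 := h2 i j (by omega)
    split_ifs with h
    · rw [h4]; simp
    · exact h4.symm

/-- the finite set of tableaux. -/
noncomputable def Bt (N : ℕ) (p : ℕ →₀ ℕ) : Finset (ℕ → ℕ → ℕ) := (finite_IsT N p).toFinset

theorem mem_Bt {N : ℕ} {p : ℕ →₀ ℕ} {t : ℕ → ℕ → ℕ} : t ∈ Bt N p ↔ IsT N p t := by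
  unfold Bt
  simp

/-- the weight of a tableau. -/
noncomputable def wt (x : ℕ → R) (p : ℕ →₀ ℕ) (t : ℕ → ℕ → ℕ) : R :=
  p.prod fun i m => ∏ j ∈ range m, x (t i j)

theorem lt_card_filter (q : ℕ → Prop) [DecidablePred q] (n : ℕ)
    (hq : ∀ j1 j2, j1 < j2 → j2 < n → q j2 → q j1) (j : ℕ) :
    j < ((range n).filter q).card ↔ j < n ∧ q j := by
  induction n generalizing j with
  | zero => simp
  | succ n ih =>
    by_cases hn : q n
    · have h1 : (range (n + 1)).filter q = range (n + 1) := by
        apply Finset.filter_true_of_mem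
        intro a ha
        have ha' : a < n + 1 := mem_range.1 ha
        rcases Nat.lt_or_ge a n with h | h
        · exact hq a n h (by omega) hn
        · have : a = n := by omega
          rw [this]; exact hn
      rw [h1, card_range]
      constructor
      · intro h
        refine ⟨h, ?_⟩
        have := mem_range.2 h
        rw [← h1] at this
        exact (Finset.mem_filter.1 this).2
      · exact fun h => h.1
    · have h1 : (range (n + 1)).filter q = (range n).filter q := by
        rw [Finset.range_add_one, Finset.filter_insert, if_neg hn]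
      rw [h1, ih (fun j1 j2 h h' => hq j1 j2 h (by omega))]
      constructor
      · rintro ⟨h, h'⟩
        exact ⟨by omega, h'⟩
      · rintro ⟨h, h'⟩
        refine ⟨?_, h'⟩
        rcases Nat.lt_or_ge j n with h2 | h2
        · exact h2
        · have : j = n := by omega
          rw [this] at h'
          exact absurd h' hn

open Classical in
/-- the shape of the part with entries `< N`. -/
noncomputable def kap (N : ℕ) (p : ℕ →₀ ℕ) (t : ℕ → ℕ → ℕ) : ℕ →₀ ℕ :=
  Finsupp.onFinset p.support (fun i => ((range (p i)).filter (fun j => t i j < N)).card) (by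
    intro i hi
    rw [Finsupp.mem_support_iff]
    intro h0
    rw [h0] at hi
    simp at hi)

theorem lt_kap {N : ℕ} {p : ℕ →₀ ℕ} {t : ℕ → ℕ → ℕ} (h : IsT (N + 1) p t) (i j : ℕ) :
    j < kap N p t i ↔ j < p i ∧ t i j < N := by
  classical
  unfold kap
  rw [Finsupp.onFinset_apply]
  convert lt_card_filter (fun j => t i j < N) (p i) ?_ j
  intro j1 j2 h1 h2 h3
  exact lt_of_le_of_lt (h.2.2.1 i j1 j2 h1 h2) h3

/-- restriction of a tableau. -/
noncomputable def res (κ : ℕ →₀ ℕ) (t : ℕ → ℕ → ℕ) : ℕ → ℕ → ℕ :=
  fun i j => if j < κ i then t i j else 0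

/-- extension of a tableau. -/
noncomputable def ext (N : ℕ) (p κ : ℕ →₀ ℕ) (t : ℕ → ℕ → ℕ) : ℕ → ℕ → ℕ :=
  fun i j => if j < κ i then t i j else if j < p i then N else 0

theorem wt_ext (x : ℕ → R) (N : ℕ) (p κ : ℕ →₀ ℕ) (t : ℕ → ℕ → ℕ) (h : κ ≤ p) :
    wt x p (ext N p κ t) = x N ^ (p.degree - κ.degree) * wt x κ t := by
  unfold wt
  rw [Finsupp.prod, Finsupp.prod_of_support_subset (s := p.support) _ _ _ (fun i _ => by simp)]
  · have h1 : p.degree - κ.degree = ∑ i ∈ p.support, (p i - κ i) := by
      have h2 : κ.degree = ∑ i ∈ p.support, κ i := by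
        rw [Finsupp.degree_apply]
        apply Finset.sum_subset
        · intro i hi
          rw [Finsupp.mem_support_iff] at *
          have := h i
          omega
        · intro i _ hi
          rw [Finsupp.notMem_support_iff] at hi
          exact hi
      have h3 : ∑ i ∈ p.support, (p i - κ i) + ∑ i ∈ p.support, κ i = ∑ i ∈ p.support, p i := by
        rw [← Finset.sum_add_distrib]
        refine Finset.sum_congr rfl fun i _ => ?_
        have := h i
        omega
      rw [h2, Finsupp.degree_apply]
      omega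
    rw [h1, ← Finset.prod_pow_eq_pow_sum, ← Finset.prod_mul_distrib]
    refine Finset.prod_congr rfl fun i _ => ?_
    have hi := h i
    obtain ⟨d, hd⟩ : ∃ d, p i = κ i + d := ⟨p i - κ i, by omega⟩
    rw [hd, Finset.prod_range_add, show κ i + d - κ i = d by omega]
    rw [mul_comm]
    congr 1
    · rw [Finset.prod_congr rfl (g := fun _ => x N)]
      · simp
      · intro j hj
        have : j < d := mem_range.1 hj
        unfold ext
        rw [if_neg (by omega), if_pos (by omega)]
    · refine Finset.prod_congr rfl fun j hj => ?_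
      unfold ext
      rw [if_pos (mem_range.1 hj)]
  · intro i hi
    rw [Finsupp.mem_support_iff] at *
    have := h i
    omega

theorem S_eq_sum (x : ℕ → R) (N : ℕ) (p : ℕ →₀ ℕ) (hp : IsPart p) :
    S x N p = ∑ t ∈ Bt N p, wt x p t := by
  classical
  induction N generalizing p with
  | zero =>
    simp only [S]
    by_cases h : p = 0
    · subst h
      have : Bt 0 (0 : ℕ →₀ ℕ) = {fun _ _ => 0} := by
        ext t
        rw [mem_Bt, Finset.mem_singleton]
        constructor
        · intro h
          funext i j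
          exact h.2.1 i j (by simp)
        · rintro rfl
          refine ⟨?_, ?_, ?_, ?_⟩ <;> simp
      rw [this, if_pos rfl, Finset.sum_singleton]
      simp [wt]
    · rw [if_neg h]
      symm
      refine Finset.sum_eq_zero fun t ht => ?_
      exfalso
      rw [mem_Bt] at ht
      apply h
      ext i
      by_contra hi
      have := ht.1 i 0 (Nat.pos_of_ne_zero hi)
      omega
  | succ N ih =>
    simp only [S]
    have h1 : ∀ κ ∈ Finset.Icc (shift p) p, x N ^ (p.degree - κ.degree) * S x N κ =
        ∑ t ∈ Bt N κ, x N ^ (p.degree - κ.degree) * wt x κ t := by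
      intro κ hκ
      rw [Finset.mem_Icc] at hκ
      have hk : IsPart κ := by
        intro i
        exact (hκ.2 (i + 1)).trans (hκ.1 i)
      rw [ih κ hk, Finset.mul_sum]
    rw [Finset.sum_congr rfl h1, Finset.sum_sigma']
    refine Finset.sum_bij'
      (i := fun (y : Σ _ : ℕ →₀ ℕ, ℕ → ℕ → ℕ) _ => ext N p y.1 y.2)
      (j := fun t _ => (⟨kap N p t, res (kap N p t) t⟩ : Σ _ : ℕ →₀ ℕ, ℕ → ℕ → ℕ))
      ?_ ?_ ?_ ?_ ?_
    · rintro ⟨κ, t⟩ hy
      simp only [Finset.mem_sigma, Finset.mem_Icc, mem_Bt] at hy
      obtain ⟨⟨h1, h2⟩, h3, h4, h5, h6⟩ := hy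
      rw [mem_Bt]
      have hlt : ∀ i j, j < κ i → ext N p κ t i j = t i j ∧ t i j < N := by
        intro i j h
        exact ⟨by unfold ext; rw [if_pos h], h3 i j h⟩
      have hle : ∀ i j, ext N p κ t i j ≤ N := by
        intro i j
        by_cases h : j < κ i
        · have := hlt i j h
          omega
        · unfold ext
          rw [if_neg h]
          split_ifs <;> omega
      have hN : ∀ i j, ¬ j < κ i → j < p i → ext N p κ t i j = N := by
        intro i j h h'
        unfold ext
        rw [if_neg h, if_pos h']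
      show IsT (N + 1) p (ext N p κ t)
      refine ⟨?_, ?_, ?_, ?_⟩
      · intro i j _
        have := hle i j
        omega
      · intro i j h
        have := h2 i
        unfold ext
        rw [if_neg (by omega), if_neg (by omega)]
      · intro i j1 j2 h h'
        by_cases hj : j2 < κ i
        · rw [(hlt i j2 hj).1, (hlt i j1 (by omega)).1]
          exact h5 i j1 j2 h hj
        · rw [hN i j2 hj h']
          exact hle i j1
      · intro i1 i2 j h h'
        have h7 : j < κ i1 := by
          have h8 := h1 i1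
          have h9 := hp.antitone (show i1 + 1 ≤ i2 by omega)
          simp only [shift_apply] at h8
          omega
        by_cases hj : j < κ i2
        · rw [(hlt i2 j hj).1, (hlt i1 j h7).1]
          exact h6 i1 i2 j h hj
        · rw [hN i2 j hj h', (hlt i1 j h7).1]
          exact (hlt i1 j h7).2
    · intro t ht
      rw [mem_Bt] at ht
      have hk := lt_kap ht
      obtain ⟨h3, h4, h5, h6⟩ := ht
      simp only [Finset.mem_sigma, Finset.mem_Icc, mem_Bt]
      refine ⟨⟨?_, ?_⟩, ?_, ?_, ?_, ?_⟩
      · intro i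
        rw [shift_apply]
        by_contra hcon
        push Not at hcon
        have h7 := (hk i (kap N p t i)).not.1 (lt_irrefl _)
        have h8 := hp i
        simp only [shift_apply] at h8
        have h9 := h6 i (i + 1) (kap N p t i) (by omega) hcon
        have h10 := h3 (i + 1) (kap N p t i) hcon
        exact h7 ⟨by omega, by omega⟩
      · intro i
        by_contra hcon
        push Not at hcon
        have h7 := (hk i (p i)).1 hcon
        omega
      · intro i j h
        unfold res
        rw [if_pos h]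
        exact ((hk i j).1 h).2
      · intro i j h
        unfold res
        rw [if_neg (by omega)]
      · intro i j1 j2 h h'
        unfold res
        rw [if_pos h', if_pos (by omega)]
        exact h5 i j1 j2 h ((hk i j2).1 h').1
      · intro i1 i2 j h h'
        have h7 := (hk i2 j).1 h'
        have h8 := h6 i1 i2 j h h7.1
        have h9 : j < kap N p t i1 := (hk i1 j).2 ⟨lt_of_lt_of_le h7.1
          (hp.antitone (by omega)), by omega⟩
        unfold res
        rw [if_pos h', if_pos h9]
        exact h8
    · rintro ⟨κ, t⟩ hy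
      simp only [Finset.mem_sigma, Finset.mem_Icc, mem_Bt] at hy
      obtain ⟨⟨h1, h2⟩, h3, h4, h5, h6⟩ := hy
      have hkap : kap N p (ext N p κ t) = κ := by
        ext i
        unfold kap
        rw [Finsupp.onFinset_apply]
        have : (range (p i)).filter (fun j => ext N p κ t i j < N) = range (κ i) := by
          ext j
          rw [Finset.mem_filter, Finset.mem_range, Finset.mem_range]
          have h7 := h2 i
          constructor
          · rintro ⟨h8, h9⟩
            by_contra hcon
            unfold ext at h9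
            rw [if_neg hcon, if_pos h8] at h9
            omega
          · intro h8
            refine ⟨by omega, ?_⟩
            unfold ext
            rw [if_pos h8]
            exact h3 i j h8
        rw [this, card_range]
      simp only [hkap, Sigma.mk.injEq, heq_eq_eq, true_and]
      funext i j
      unfold res ext
      by_cases h : j < κ i
      · rw [if_pos h, if_pos h]
      · rw [if_neg h]
        exact (h4 i j (by omega)).symm
    · intro t ht
      rw [mem_Bt] at ht
      have hk := lt_kap ht
      obtain ⟨h3, h4, h5, h6⟩ := ht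
      funext i j
      simp only
      unfold ext res
      by_cases h : j < kap N p t i
      · rw [if_pos h, if_pos h]
      · rw [if_neg h]
        by_cases h' : j < p i
        · rw [if_pos h']
          have h7 := h3 i j h'
          have h8 : ¬ t i j < N := fun h9 => h ((hk i j).2 ⟨h', h9⟩)
          omega
        · rw [if_neg h']
          exact (h4 i j (by omega)).symm
    · rintro ⟨κ, t⟩ hy
      simp only [Finset.mem_sigma, Finset.mem_Icc, mem_Bt] at hy
      exact (wt_ext x N p κ t hy.1.2).symm

/-- The Young diagram of a partition. -/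
noncomputable def toYD (p : ℕ →₀ ℕ) (hp : IsPart p) : YoungDiagram where
  cells := p.support.biUnion fun i => (range (p i)).image fun j => (i, j)
  isLowerSet := by
    rintro ⟨i, j⟩ ⟨i', j'⟩ h1 h2
    simp only [Finset.coe_biUnion, Finset.mem_coe, Finset.coe_image, Set.mem_iUnion,
      Set.mem_image, Finset.coe_range, Set.mem_Iio, Prod.mk.injEq, Finsupp.mem_support_iff] at h2 ⊢
    obtain ⟨a, ha, b, hb, rfl, rfl⟩ := h2
    have h3 : i' ≤ a := h1.1
    have h4 : j' ≤ b := h1.2
    have h5 := hp.antitone h3
    exact ⟨i', by omega, j', by omega, rfl, rfl⟩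

theorem mem_toYD {p : ℕ →₀ ℕ} {hp : IsPart p} {i j : ℕ} : (i, j) ∈ toYD p hp ↔ j < p i := by
  rw [← YoungDiagram.mem_cells]
  unfold toYD
  simp only [Finset.mem_biUnion, Finset.mem_image, Finset.mem_range, Prod.mk.injEq,
    Finsupp.mem_support_iff]
  constructor
  · rintro ⟨a, ha, b, hb, rfl, rfl⟩
    exact hb
  · intro h
    exact ⟨i, by omega, j, h, rfl, rfl⟩

theorem sum_cells {M : Type*} [AddCommMonoid M] (p : ℕ →₀ ℕ) (hp : IsPart p) (f : ℕ → ℕ → M) :
    ∑ c ∈ (toYD p hp).cells, f c.1 c.2 = ∑ i ∈ p.support, ∑ j ∈ range (p i), f i j := by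
  unfold toYD
  simp only
  rw [Finset.sum_biUnion]
  · refine Finset.sum_congr rfl fun i _ => ?_
    rw [Finset.sum_image]
    intro a _ b _ h
    simpa using h
  · intro i _ i' _ hii'
    rw [Function.onFun, Finset.disjoint_left]
    intro c hc hc'
    simp only [Finset.mem_image, Finset.mem_range] at hc hc'
    obtain ⟨a, _, rfl⟩ := hc
    obtain ⟨b, _, hb⟩ := hc'
    simp only [Prod.mk.injEq] at hb
    exact hii' hb.1.symm

theorem card_toYD (p : ℕ →₀ ℕ) (hp : IsPart p) : (toYD p hp).card = p.degree := by
  have := sum_cells p hp (fun _ _ => 1)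
  simp only [Finset.sum_const, smul_eq_mul, mul_one, card_range] at this
  rw [Finsupp.degree_apply]
  exact this

open MvPolynomial in
theorem coeff_S (N : ℕ) (p : ℕ →₀ ℕ) (hp : IsPart p) (e : ℕ →₀ ℕ) (he : ∀ i ∈ e.support, i < N) :
    coeff e (S (X : ℕ → MvPolynomial ℕ ℤ) N p) = schur (toYD p hp) e := by
  classical
  rw [S_eq_sum X N p hp, coeff_sum]
  have h1 : ∀ t, wt (X : ℕ → MvPolynomial ℕ ℤ) p t =
      monomial (∑ i ∈ p.support, ∑ j ∈ range (p i), Finsupp.single (t i j) 1) 1 := by
    intro t
    unfold wt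
    rw [Finsupp.prod, monomial_sum_one]
    refine Finset.prod_congr rfl fun i _ => ?_
    rw [monomial_sum_one]
    rfl
  have h2 : ∀ t ∈ Bt N p, coeff e (wt (X : ℕ → MvPolynomial ℕ ℤ) p t) =
      if (∑ i ∈ p.support, ∑ j ∈ range (p i), Finsupp.single (t i j) 1) = e then 1 else 0 := by
    intro t _
    rw [h1, coeff_monomial]
  rw [Finset.sum_congr rfl h2, Finset.sum_boole]
  unfold schur
  congr 1
  rw [← Fintype.card_coe, ← Nat.card_eq_fintype_card]
  refine Nat.card_congr ⟨fun t => ⟨⟨t.1, ?_, ?_, ?_⟩, ?_⟩, fun T => ⟨T.1.entry, ?_⟩, ?_, ?_⟩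
  · intro i j1 j2 hj hc
    have ht := mem_Bt.1 (Finset.mem_filter.1 t.2).1
    exact ht.2.2.1 i j1 j2 hj (mem_toYD.1 hc)
  · intro i1 i2 j hi hc
    have ht := mem_Bt.1 (Finset.mem_filter.1 t.2).1
    exact ht.2.2.2 i1 i2 j hi (mem_toYD.1 hc)
  · intro i j hc
    have ht := mem_Bt.1 (Finset.mem_filter.1 t.2).1
    rw [mem_toYD] at hc
    exact ht.2.1 i j (by omega)
  · have ht := (Finset.mem_filter.1 t.2).2
    exact (sum_cells p hp (fun i j => Finsupp.single (t.1 i j) 1)).trans ht
  · obtain ⟨T, hT⟩ := T
    rw [Finset.mem_filter, mem_Bt]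
    refine ⟨⟨?_, ?_, ?_, ?_⟩, ?_⟩
    · intro i j hj
      apply he
      rw [Finsupp.mem_support_iff]
      have hT' := DFunLike.congr_fun hT (T i j)
      rw [Finsupp.finsetSum_apply] at hT'
      have hc : (i, j) ∈ (toYD p hp).cells := mem_toYD.2 hj
      have h3 := Finset.single_le_sum (f := fun c : ℕ × ℕ => (Finsupp.single (T c.1 c.2) 1 : ℕ →₀ ℕ)
        (T i j)) (fun _ _ => Nat.zero_le _) hc
      simp only [Finsupp.single_eq_same] at h3
      have h4 : T.entry i j = T i j := rfl
      simp only
      rw [h4]
      omega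
    · intro i j hj
      exact T.zeros' (fun hc => by rw [mem_toYD] at hc; omega)
    · intro i j1 j2 hj hc
      exact T.row_weak' hj (mem_toYD.2 hc)
    · intro i1 i2 j hi hc
      exact T.col_strict' hi (mem_toYD.2 hc)
    · exact (sum_cells p hp (fun i j => Finsupp.single (T i j) 1)).symm.trans hT
  · intro t
    rfl
  · intro T
    rfl

end Pool.Agent.MP_8317ba_co
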