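import Mathlib
import Pool.Agent.MP_8317ba_co.SSYT
import Pool.Agent.MP_8317ba_co.Cyclic

set_option autoImplicit false

namespace Pool.Agent.MP_8317ba_co

open Finset

/-- the content of a word -/
noncomputable def content {n : ℕ} (w : Fin n → ℕ) : ℕ →₀ ℕ := ∑ j, Finsupp.single (w j) 1

theorem content_comp {n : ℕ} (w : Fin n → ℕ) (π : Equiv.Perm (Fin n)) :
    content (fun j => w (π j)) = content w :=
  Equiv.sum_comp π (fun j => Finsupp.single (w j) 1)

theorem lt_of_content {n N : ℕ} (w : Fin n → ℕ) (e : ℕ →₀ ℕ) (he : ∀ i ∈ e.support, i < N)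
    (h : content w = e) (j : Fin n) : w j < N := by
  apply he
  rw [Finsupp.mem_support_iff, ← h]
  unfold content
  rw [Finsupp.finsetSum_apply]
  have h3 := Finset.single_le_sum (f := fun c : Fin n => (Finsupp.single (w c) 1 : ℕ →₀ ℕ)
    (w j)) (fun _ _ => Nat.zero_le _) (Finset.mem_univ j)
  simp only [Finsupp.single_eq_same] at h3
  omega

theorem sort_iff {n : ℕ} (i : Fin n → ℕ) (π : Equiv.Perm (Fin n)) :
    (Monotone i ∧ (∀ (j : ℕ) (h : j + 1 < n), j ∈ Des π → i ⟨j, by omega⟩ < i ⟨j + 1, h⟩)) ↔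
      Tuple.sort (fun j => i (π.symm j)) = π := by
  rw [eq_comm, Tuple.eq_sort_iff]
  have h0 : (fun j => i (π.symm j)) ∘ π = i := by funext j; simp
  rw [h0]
  simp only [Equiv.symm_apply_apply]
  constructor
  · rintro ⟨h1, h2⟩
    refine ⟨h1, ?_⟩
    have key : ∀ (b a : ℕ) (hb : b < n) (hab : a < b), i ⟨a, by omega⟩ = i ⟨b, hb⟩ →
        π ⟨a, by omega⟩ < π ⟨b, hb⟩ := by
      intro b
      induction b with
      | zero => intro a _ hab; omega
      | succ b ih =>
        intro a hb hab heq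
        have e1 : i ⟨a, by omega⟩ ≤ i ⟨b, by omega⟩ := h1 (Fin.mk_le_mk.2 (by omega))
        have e2 : i ⟨b, by omega⟩ ≤ i ⟨b + 1, hb⟩ := h1 (Fin.mk_le_mk.2 (by omega))
        have e3 : i ⟨b, by omega⟩ = i ⟨b + 1, hb⟩ := le_antisymm e2 (by rw [← heq]; exact e1)
        have e4 : π ⟨b, by omega⟩ < π ⟨b + 1, hb⟩ := by
          by_contra hcon
          have hne : π ⟨b, by omega⟩ ≠ π ⟨b + 1, hb⟩ := by
            intro h
            have := π.injective h
            simp at this
          have hlt : π ⟨b + 1, hb⟩ < π ⟨b, by omega⟩ := lt_of_le_of_ne (not_lt.1 hcon) hne.symm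
          have := h2 b hb ⟨hb, hlt⟩
          omega
        rcases Nat.lt_or_ge a b with h | h
        · exact lt_trans (ih a (by omega) h (by rw [heq, e3])) e4
        · have : a = b := by omega
          subst this
          exact e4
    intro a b hab heq
    exact key b.val a.val b.isLt hab heq
  · rintro ⟨h1, h2⟩
    refine ⟨h1, ?_⟩
    rintro j h ⟨_, h3⟩
    have e1 : i ⟨j, by omega⟩ ≤ i ⟨j + 1, h⟩ := h1 (Fin.mk_le_mk.2 (by omega))
    rcases lt_or_eq_of_le e1 with h4 | h4
    · exact h4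
    · have := h2 ⟨j, by omega⟩ ⟨j + 1, h⟩ (Fin.mk_lt_mk.2 (by omega)) h4
      exact absurd this (not_lt.2 h3.le)

open Classical in
theorem fundamental_eq {n N : ℕ} (π : Equiv.Perm (Fin n)) (e : ℕ →₀ ℕ)
    (he : ∀ i ∈ e.support, i < N) :
    fundamental n (Des π) e = ∑ w ∈ Wd n N, if Tuple.sort w = π ∧ content w = e then 1 else 0 := by
  rw [Finset.sum_boole]
  unfold fundamental
  congr 1
  rw [← Fintype.card_coe, ← Nat.card_eq_fintype_card]
  refine Nat.card_congr ⟨fun i => ⟨fun j => i.1 (π.symm j), ?_⟩, fun w => ⟨fun j => w.1 (π j), ?_⟩,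
    ?_, ?_⟩
  · obtain ⟨i, h1, h2, h3⟩ := i
    have h4 : content (fun j => i (π.symm j)) = e := by
      rw [content_comp i π.symm]
      exact h3
    rw [Finset.mem_filter, mem_Wd]
    exact ⟨fun j => lt_of_content _ e he h4 j, (sort_iff i π).1 ⟨h1, h2⟩, h4⟩
  · obtain ⟨w, hw⟩ := w
    rw [Finset.mem_filter] at hw
    have h1 : (fun j => (fun j => w (π j)) (π.symm j)) = w := by funext j; simp
    have h2 := (sort_iff (fun j => w (π j)) π).2 (by rw [h1]; exact hw.2.1)
    refine ⟨h2.1, h2.2, ?_⟩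
    have h3 := content_comp w π
    rw [hw.2.2] at h3
    exact h3
  · intro i
    apply Subtype.ext
    funext j
    simp
  · intro w
    apply Subtype.ext
    funext j
    simp

open Classical in
theorem Q_eq {n N : ℕ} (A : Set (Equiv.Perm (Fin n))) (e : ℕ →₀ ℕ)
    (he : ∀ i ∈ e.support, i < N) :
    Q A e = ∑ w ∈ Wd n N, (if Tuple.sort w ∈ A then 1 else 0) * (if content w = e then 1 else 0) := by
  unfold Q
  have h1 : (∑ π : Equiv.Perm (Fin n), if π ∈ A then fundamental n (Des π) else 0) e =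
      ∑ π : Equiv.Perm (Fin n), (if π ∈ A then fundamental n (Des π) else 0) e :=
    Finset.sum_apply _ _ _
  rw [h1]
  have h2 : ∀ π ∈ (Finset.univ : Finset (Equiv.Perm (Fin n))),
      (if π ∈ A then fundamental n (Des π) else 0) e =
      ∑ w ∈ Wd n N, (if π ∈ A then 1 else 0) * (if Tuple.sort w = π ∧ content w = e then 1 else 0) := by
    intro π _
    rw [← Finset.mul_sum, ← fundamental_eq π e he]
    split_ifs
    · rw [one_mul]
    · rw [zero_mul]; rfl
  rw [Finset.sum_congr rfl h2, Finset.sum_comm]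
  refine Finset.sum_congr rfl fun w _ => ?_
  rw [Finset.sum_eq_single (Tuple.sort w)]
  · simp
  · intro π _ hπ
    rw [if_neg (c := Tuple.sort w = π ∧ content w = e), mul_zero]
    rintro ⟨h, _⟩
    exact hπ h.symm
  · intro h; simp at h

open Classical in
open MvPolynomial in
theorem fine_of {n : ℕ} (A : Set (Equiv.Perm (Fin n))) (c : (ℕ →₀ ℕ) →₀ ℕ)
    (hc : ∀ ν ∈ c.support, IsPart ν ∧ ν.degree = n)
    (h : ∀ N, ∑ w ∈ Wd n N, (if Tuple.sort w ∈ A then 1 else 0) *
      ∏ i, (X (w i) : MvPolynomial ℕ ℤ) = c.sum fun ν m => (m : MvPolynomial ℕ ℤ) * S X N ν) :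
    Fine A := by
  set ψ : (ℕ →₀ ℕ) → YoungDiagram := fun p => if hp : IsPart p then toYD p hp else ⊥ with hψ
  refine ⟨c.mapDomain ψ, ?_, ?_⟩
  · intro μ hμ
    have h1 := Finsupp.mapDomain_support hμ
    rw [Finset.mem_image] at h1
    obtain ⟨p, hp, rfl⟩ := h1
    obtain ⟨h2, h3⟩ := hc p hp
    simp only [hψ]
    rw [dif_pos h2, card_toYD, h3]
  · rw [Finsupp.sum_mapDomain_index (by intro μ; simp) (by intro μ m1 m2; rw [add_smul])]
    funext e
    obtain ⟨N, he⟩ : ∃ N, ∀ i ∈ e.support, i < N :=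
      ⟨e.support.sup id + 1, fun i hi => Nat.lt_succ_of_le (Finset.le_sup (f := id) hi)⟩
    rw [Q_eq A e he]
    have h1 := congrArg (coeff e) (h N)
    rw [coeff_sum] at h1
    have h2 : ∀ w ∈ Wd n N, coeff e ((if Tuple.sort w ∈ A then 1 else 0) *
        ∏ i, (X (w i) : MvPolynomial ℕ ℤ)) =
        (if Tuple.sort w ∈ A then 1 else 0) * (if content w = e then 1 else 0) := by
      intro w _
      have h3 : ∏ i, (X (w i) : MvPolynomial ℕ ℤ) = monomial (content w) 1 := by
        unfold content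
        rw [monomial_sum_one]
        rfl
      rw [h3]
      split_ifs with h4 h5 h5
      · rw [one_mul, coeff_monomial, if_pos h5]; rfl
      · rw [one_mul, coeff_monomial, if_neg h5]; rfl
      · simp
      · simp
    rw [Finset.sum_congr rfl h2] at h1
    rw [h1]
    rw [Finsupp.sum, Finsupp.sum, coeff_sum]
    have h5 : (∑ a ∈ c.support, c a • schur (ψ a)) e = ∑ a ∈ c.support, (c a • schur (ψ a)) e :=
      Finset.sum_apply _ _ _
    rw [h5]
    refine Finset.sum_congr rfl fun ν hν => ?_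
    obtain ⟨h2, h3⟩ := hc ν hν
    have h6 : ψ ν = toYD ν h2 := by simp only [hψ]; rw [dif_pos h2]
    rw [h6]
    have h7 : ((c ν : ℕ) : MvPolynomial ℕ ℤ) = C ((c ν : ℕ) : ℤ) := by simp
    rw [h7, coeff_C_mul, coeff_S N ν h2 e he]
    show _ = c ν • (schur (toYD ν h2) e)
    rw [nsmul_eq_mul]

theorem sort_symm_lt {n : ℕ} (w : Fin n → ℕ) (a b : Fin n) :
    (Tuple.sort w).symm a < (Tuple.sort w).symm b ↔ (w a < w b ∨ (w a = w b ∧ a < b)) := by
  have h := (Tuple.eq_sort_iff (f := w) (σ := Tuple.sort w)).1 rfl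
  obtain ⟨h1, h2⟩ := h
  set π := Tuple.sort w with hπ
  obtain ⟨a', rfl⟩ := π.surjective a
  obtain ⟨b', rfl⟩ := π.surjective b
  rw [Equiv.symm_apply_apply, Equiv.symm_apply_apply]
  constructor
  · intro hab
    have h3 : w (π a') ≤ w (π b') := h1 hab.le
    rcases lt_or_eq_of_le h3 with h4 | h4
    · exact Or.inl h4
    · exact Or.inr ⟨h4, h2 a' b' hab h4⟩
  · rintro (h3 | ⟨h3, h4⟩)
    · by_contra hcon
      have : w (π b') ≤ w (π a') := h1 (not_lt.1 hcon)
      omega
    · by_contra hcon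
      rcases lt_or_eq_of_le (not_lt.1 hcon) with h5 | h5
      · have := h2 b' a' h5 h3.symm
        exact absurd h4 (not_lt.2 this.le)
      · rw [h5] at h4
        exact lt_irrefl _ h4

theorem lt_self_iff' {m : ℕ} (i : Fin (m + 2)) : i + 1 < i ↔ i = Fin.last (m + 1) := by
  constructor
  · intro h
    by_contra hne
    have h1 : i.val < m + 1 := by
      have h2 := i.isLt
      have h3 : i.val ≠ m + 1 := fun h4 => hne (Fin.ext h4)
      omega
    rw [Fin.lt_def, val_add_one' i h1] at h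
    omega
  · rintro rfl
    rw [last_add_one _ (Fin.val_last _)]
    rw [Fin.lt_def]
    simp

theorem wdP_eq {m : ℕ} (w : Fin (m + 2) → ℕ) (i : Fin (m + 2)) :
    ((Tuple.sort w).symm (i + 1) < (Tuple.sort w).symm i) ↔ wdP w i := by
  rw [sort_symm_lt, lt_self_iff']
  unfold wdP
  by_cases h : i = Fin.last (m + 1)
  · simp only [h, and_true, if_true]
    omega
  · simp only [h, and_false, or_false, if_false]

/-- The condition on cyclic descent patterns which defines the rotated grid class. -/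
def Pcyc {k m : ℕ} (v : Fin k → Bool) (d : Fin (m + 2) → Prop) : Prop :=
  ∃ (s : Fin (m + 2)) (col : Fin (m + 2) → Fin k), Monotone col ∧
    ∀ a : Fin (m + 2), a.val < m + 1 → col a = col (a + 1) →
      ((v (col a) = true → ¬ d (a + s)) ∧ (v (col a) = false → d (a + s)))

theorem Pcyc_rot {k m : ℕ} (v : Fin k → Bool) (d : Fin (m + 2) → Prop) (t : Fin (m + 2)) :
    Pcyc v (fun i => d (i + t)) ↔ Pcyc v d := by
  constructor
  · rintro ⟨s, col, h1, h2⟩
    refine ⟨s + t, col, h1, ?_⟩
    intro a ha hc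
    have := h2 a ha hc
    simpa only [add_assoc] using this
  · rintro ⟨s, col, h1, h2⟩
    refine ⟨s - t, col, h1, ?_⟩
    intro a ha hc
    have := h2 a ha hc
    have h3 : a + (s - t) + t = a + s := by rw [add_assoc, sub_add_cancel]
    simp only [h3]
    exact this

theorem grid_iff {k m : ℕ} (v : Fin k → Bool) (ρ : Equiv.Perm (Fin (m + 2))) :
    ρ ∈ gridClass v (m + 2) ↔ ∃ col : Fin (m + 2) → Fin k, Monotone col ∧
      ∀ a : Fin (m + 2), a.val < m + 1 → col a = col (a + 1) →
        ((v (col a) = true → ρ.symm a < ρ.symm (a + 1)) ∧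
          (v (col a) = false → ρ.symm (a + 1) < ρ.symm a)) := by
  unfold gridClass
  constructor
  · rintro ⟨col, h1, h2⟩
    refine ⟨col, h1, ?_⟩
    intro a ha hc
    exact h2 a (a + 1) (by rw [Fin.lt_def, val_add_one' a ha]; omega) hc
  · rintro ⟨col, h1, h2⟩
    refine ⟨col, h1, ?_⟩
    have key : ∀ (b a : ℕ) (hb : b < m + 2) (hab : a < b),
        col ⟨a, by omega⟩ = col ⟨b, hb⟩ →
        ((v (col ⟨b, hb⟩) = true → ρ.symm ⟨a, by omega⟩ < ρ.symm ⟨b, hb⟩) ∧
          (v (col ⟨b, hb⟩) = false → ρ.symm ⟨b, hb⟩ < ρ.symm ⟨a, by omega⟩)) := by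
      intro b
      induction b with
      | zero => intro a _ hab; omega
      | succ b ih =>
        intro a hb hab heq
        have e1 : col ⟨a, by omega⟩ ≤ col ⟨b, by omega⟩ := h1 (Fin.mk_le_mk.2 (by omega))
        have e2 : col ⟨b, by omega⟩ ≤ col ⟨b + 1, hb⟩ := h1 (Fin.mk_le_mk.2 (by omega))
        have e3 : col ⟨b, by omega⟩ = col ⟨b + 1, hb⟩ := le_antisymm e2 (by rw [← heq]; exact e1)
        have e5 : (⟨b, by omega⟩ : Fin (m + 2)) + 1 = ⟨b + 1, hb⟩ := by
          apply Fin.ext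
          rw [val_add_one' _ (by simp only; omega)]
        have e4 := h2 ⟨b, by omega⟩ (by simp only; omega) (by rw [e5]; exact e3)
        rw [e5, e3] at e4
        rcases Nat.lt_or_ge a b with h | h
        · have e6 := ih a (by omega) h (by rw [heq, e3])
          rw [e3] at e6
          exact ⟨fun hv => lt_trans (e6.1 hv) (e4.1 hv), fun hv => lt_trans (e4.2 hv) (e6.2 hv)⟩
        · have : a = b := by omega
          subst this
          exact e4
    intro a b hab heq
    rw [heq]
    exact key b.val a.val b.isLt hab heq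

theorem finRotate_pow {m : ℕ} (j : ℕ) (a : Fin (m + 2)) :
    ((finRotate (m + 2)) ^ j) a = a + Fin.ofNat (m + 2) j := by
  induction j generalizing a with
  | zero =>
    have : Fin.ofNat (m + 2) 0 = 0 := rfl
    rw [this]
    simp
  | succ j ih =>
    rw [pow_succ, Equiv.Perm.mul_apply, ih, finRotate_apply]
    have : Fin.ofNat (m + 2) (j + 1) = 1 + Fin.ofNat (m + 2) j := by
      apply Fin.ext
      rw [Fin.val_add]
      simp only [Fin.ofNat, Fin.val_one]
      rw [Nat.add_mod_mod, add_comm]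
    rw [this, add_assoc]

theorem mem_rot_iff {k m : ℕ} (v : Fin k → Bool) (π : Equiv.Perm (Fin (m + 2))) :
    π ∈ verticalRotations (gridClass v (m + 2)) ↔
      Pcyc v (fun i => π.symm (i + 1) < π.symm i) := by
  have hne : ∀ a : Fin (m + 2), π.symm (a + 1) ≠ π.symm a := by
    intro a h
    have h1 := π.symm.injective h
    simp at h1
  have hcond : ∀ (s : Fin (m + 2)) (ρ : Equiv.Perm (Fin (m + 2))),
      (∀ a, ρ.symm a = π.symm (a + s)) → (ρ ∈ gridClass v (m + 2) ↔
        ∃ col : Fin (m + 2) → Fin k, Monotone col ∧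
        ∀ a : Fin (m + 2), a.val < m + 1 → col a = col (a + 1) →
        ((v (col a) = true → ¬ (π.symm (a + s + 1) < π.symm (a + s))) ∧
          (v (col a) = false → (π.symm (a + s + 1) < π.symm (a + s))))) := by
    intro s ρ hρ
    rw [grid_iff]
    simp only [hρ]
    have h1 : ∀ a : Fin (m + 2), a + 1 + s = a + s + 1 := fun a => add_right_comm a 1 s
    simp only [h1, not_lt]
    have h2 : ∀ a : Fin (m + 2), π.symm (a + s) < π.symm (a + s + 1) ↔
        π.symm (a + s) ≤ π.symm (a + s + 1) := by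
      intro a
      exact ⟨le_of_lt, fun h => lt_of_le_of_ne h (hne _).symm⟩
    simp only [h2]
  constructor
  · rintro ⟨j, hj, ρ, hρ, rfl⟩
    have h1 : ∀ a, ρ.symm a = ((finRotate (m + 2)) ^ j * ρ).symm (a + (Fin.ofNat (m + 2) j)) := by
      intro a
      rw [← finRotate_pow j a]
      rw [Equiv.eq_symm_apply, Equiv.Perm.mul_apply, Equiv.apply_symm_apply]
    obtain ⟨col, h2, h3⟩ := (hcond (Fin.ofNat (m + 2) j) ρ h1).1 hρ
    exact ⟨Fin.ofNat (m + 2) j, col, h2, h3⟩
  · rintro ⟨s, col, h2, h3⟩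
    refine ⟨s.val, s.isLt, ((finRotate (m + 2)) ^ s.val)⁻¹ * π, ?_, by group⟩
    refine (hcond s _ ?_).2 ⟨col, h2, h3⟩
    intro a
    rw [Equiv.symm_apply_eq, Equiv.Perm.mul_apply, Equiv.apply_symm_apply]
    rw [Equiv.Perm.eq_inv_iff_eq, finRotate_pow]
    congr 1
    apply Fin.ext
    exact Nat.mod_eq_of_lt s.isLt

open Classical in
theorem main_big {k m : ℕ} (v : Fin k → Bool) :
    Fine (verticalRotations (gridClass v (m + 2))) := by
  have hex : ∀ κ : Fin m → Bool, ∃ c : (ℕ →₀ ℕ) →₀ ℕ,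
      (∀ ν ∈ c.support, IsPart ν ∧ ν.degree = m + 2) ∧
      ∀ N, W (MvPolynomial.X : ℕ → MvPolynomial ℕ ℤ) N ((List.ofFn κ).map kd ++ [Kind.J]) =
        c.sum fun ν m => (m : MvPolynomial ℕ ℤ) * S MvPolynomial.X N ν := by
    intro κ
    obtain ⟨c, hc1, hc2⟩ := V_expand (R := MvPolynomial ℕ ℤ)
      (((List.ofFn κ).map kd ++ [Kind.J]).length + 1)
      (Kind.J :: ((List.ofFn κ).map kd ++ [Kind.J])) 0 isPart_zero 0
    refine ⟨c, ?_, ?_⟩
    · intro ν hν
      obtain ⟨h1, h2⟩ := hc1 ν hν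
      refine ⟨h1, ?_⟩
      rw [h2]
      simp
    · intro N
      rw [W_eq_V, hc2]
  choose c hc1 hc2 using hex
  refine fine_of _ (∑ κ ∈ Finset.univ.filter (fun κ : Fin m → Bool => Pcyc v (extk κ)), c κ) ?_ ?_
  · intro ν hν
    have := Finsupp.support_finsetSum hν
    simp only [Finset.mem_biUnion] at this
    obtain ⟨κ, _, hκ⟩ := this
    exact hc1 κ ν hκ
  · intro N
    have h1 : ∀ w : Fin (m + 2) → ℕ,
        (Tuple.sort w ∈ verticalRotations (gridClass v (m + 2))) ↔ Pcyc v (wdP w) := by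
      intro w
      rw [mem_rot_iff]
      have : (fun i => (Tuple.sort w).symm (i + 1) < (Tuple.sort w).symm i) = wdP w := by
        funext i
        exact propext (wdP_eq w i)
      rw [this]
    simp only [h1]
    rw [cyc_sum (MvPolynomial.X : ℕ → MvPolynomial ℕ ℤ) m N (Pcyc v) (Pcyc_rot v)]
    rw [← Finsupp.sum_finsetSum_index (by intro ν; simp) (by intro ν m1 m2; push_cast; ring)]
    rw [Finset.sum_filter]
    refine Finset.sum_congr rfl fun κ _ => ?_
    rw [hc2]
    split_ifs <;> simp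

open Classical in
theorem main_one {k : ℕ} (hk : 1 ≤ k) (v : Fin k → Bool) :
    Fine (verticalRotations (gridClass v 1)) := by
  obtain ⟨c, hc1, hc2⟩ := V_expand (R := MvPolynomial ℕ ℤ) 1 [Kind.J] 0 isPart_zero 0
  refine fine_of _ c ?_ ?_
  · intro ν hν
    obtain ⟨h1, h2⟩ := hc1 ν hν
    refine ⟨h1, ?_⟩
    rw [h2]
    simp
  · intro N
    have h1 : ∀ π : Equiv.Perm (Fin 1), π ∈ verticalRotations (gridClass v 1) := by
      intro π
      refine ⟨0, by omega, π, ?_, by simp⟩
      refine ⟨fun _ => ⟨0, by omega⟩, fun _ _ _ => le_rfl, ?_⟩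
      intro a b hab
      have := Subsingleton.elim a b
      subst this
      exact absurd hab (lt_irrefl _)
    have h2 := W_eq_V (MvPolynomial.X : ℕ → MvPolynomial ℕ ℤ) N []
    rw [← hc2]
    rw [List.length_nil, zero_add] at h2
    rw [← h2]
    rw [sum_Wd_succ]
    unfold W
    refine Finset.sum_congr rfl fun a _ => ?_
    simp only [h1, if_true, one_mul, Fin.prod_univ_succ, Fin.prod_univ_zero, Fin.cons_zero, mul_one, G]
    have : Wd 0 N = {fun i => i.elim0} := by
      ext w
      rw [mem_Wd, Finset.mem_singleton]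
      constructor
      · intro _
        funext i
        exact i.elim0
      · intro _ i
        exact i.elim0
    rw [this, Finset.sum_singleton]

/-- All vertical rotations of one-column grid classes are fine. -/
theorem main (k : ℕ) (hk : 1 ≤ k) (v : Fin k → Bool) (n : ℕ) (hn : 1 ≤ n) :
    Fine (verticalRotations (gridClass v n)) := by
  match n, hn with
  | 1, _ => exact main_one hk v
  | m + 2, _ => exact main_big v

end Pool.Agent.MP_8317ba_co
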